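import Pool.Agent.Helper10.BT.A6

/-!
# Sections over extensions: one family of constants for all pairs of vectors
-/

universe u

set_option linter.unusedSectionVars false

namespace Pool.Agent.TQ

open Pool.Agent.BT Pool.Agent.PL Pool.Agent.Helper91.Sect OE Pool.Agent.LT Pool.Agent.SC
  Pool.Agent.GC Pool.Agent.Helper37.UL

variable {k k' K : Type u} [Field k] [CharZero k] [Field k'] [Field K]
  [Algebra k k'] [Algebra k' K]
  [Algebra k (kbar k' K)] [IsScalarTower k k' (kbar k' K)] [FiniteDimensional k k']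
  [Algebra.IsAlgebraic k (kbar k' K)] {ι : Type} [Fintype ι]

/-- The pair `(A, B)` of vectors in `C` is good: for all isomorphisms `φ` of `C` with `kbar` the values of `A` and
`B` at `v` are not zero and the `p`-th roots of their quotient are unramified. -/
def Good {C : Type u} [Field C] [Algebra k C] (p : ℕ) (v : ι → K) (A B : ι → C) : Prop :=
  ∀ φ : C ≃ₐ[k] kbar k' K, evl v (fun q => φ (A q)) ≠ 0 ∧ evl v (fun q => φ (B q)) ≠ 0 ∧
    ∀ w : AlgebraicClosure K,
      w ^ p * evl v (fun q => φ (B q)) = evl v (fun q => φ (A q)) → w ∈ Kur k' K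

/-- the conclusions, for `C` and the section `s` -/
structure LevG {C : Type u} [Field C] [Algebra k C] (p : ℕ) (s : GaloisSection k' K) (v : ι → K)
    (Z : (ι → C) → (ι → C) → C) : Prop where
  ne : ∀ A B, Good (k := k) (k' := k') p v A B → Z A B ≠ 0
  pow : ∀ A B, Good (k := k) (k' := k') p v A B → Z A B ^ p ∈ IntermediateField.adjoin k
    (mu C p ∪ (Set.range A ∪ Set.range B))
  equi : ∀ A B, Good (k := k) (k' := k') p v A B → ∀ σ : C ≃ₐ[k] C,
    (σ (Z A B) / Z (fun q => σ (A q)) (fun q => σ (B q))) ^ p = 1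
  coc : ∀ A B D, Good (k := k) (k' := k') p v A B → Good (k := k) (k' := k') p v B D →
    Good (k := k) (k' := k') p v A D → Z A B * Z B D / Z A D ∈ IntermediateField.adjoin k
      (mu C p ∪ (Set.range A ∪ Set.range B ∪ Set.range D))
  prod : ∀ {d r : ℕ}, d = p * r → ∀ {κ : Type} [Fintype κ] {v' : κ → K} {G : Fin d → ι → C}
    {W : κ → C} {T : k}, T ≠ 0 →
    (∀ (φ : C ≃ₐ[k] kbar k' K) i, evl v (fun q => φ (G i q)) ≠ 0) →
    (∀ φ : C ≃ₐ[k] kbar k' K, ∏ i, evl v (fun q => φ (G i q)) =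
      ((algebraMap k (kbar k' K) T : kbar k' K) : AlgebraicClosure K) *
        evl v' (fun q => φ (W q)) ^ p) →
    (∀ i j, i ≠ j → Good (k := k) (k' := k') p v (G i) (G j)) →
    ∀ α : C, α ^ p = algebraMap k C T → ∀ i, α / ∏ j ∈ Finset.univ.erase i, Z (G j) (G i) ∈
      IntermediateField.adjoin k (mu C p ∪ ((⋃ j, Set.range (G j)) ∪ Set.range W))
  inert : ∀ V : ValuationSubring C, (p : C)⁻¹ ∈ V → ∀ A B, Good (k := k) (k' := k') p v A B →
    (∀ (φ : C ≃ₐ[k] kbar k' K) (τ : Gk k' K), (∀ q, τ (φ (A q)) = φ (A q)) →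
      (∀ q, τ (φ (B q)) = φ (B q)) →
      InInert (V.comap ((φ.symm : kbar k' K ≃+* C) : kbar k' K →+* C)) τ →
      ∀ ρ : AlgebraicClosure K ≃ₐ[K] AlgebraicClosure K, (∀ w : Kur k' K, ρ w = s.toHom τ w) →
      ∀ w ∈ Kur k' K, w ^ p * evl v (fun q => φ (B q)) = evl v (fun q => φ (A q)) → ρ w = w) →
    ∀ σ : C ≃ₐ[k] C, (∀ w, σ w ∈ V ↔ w ∈ V) → (∀ w ∈ V, V.valuation (σ w - w) < 1) →
      (∀ q, σ (A q) = A q) → (∀ q, σ (B q) = B q) → σ (Z A B) = Z A B

/-- **One family of constants for all pairs of vectors, over `kbar`.** -/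
theorem exists_levG_kbar {p : ℕ} (hp : p.Prime) (hdeg : ¬ p ∣ Module.finrank k k')
    (s : GaloisSection k' K) (v : ι → K) :
    ∃ Z : (ι → kbar k' K) → (ι → kbar k' K) → kbar k' K,
      LevG (k := k) (C := kbar k' K) p s v Z := by
  classical
  have hp' : p ≠ 0 := hp.ne_zero
  have hk0' : CharZero k' := charZero_of_injective_algebraMap (algebraMap k k').injective
  have hkb0 : CharZero (kbar k' K) :=
    charZero_of_injective_algebraMap (algebraMap k' (kbar k' K)).injective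
  have hIC : IsAlgClosure k (kbar k' K) := ⟨inferInstance, inferInstance⟩
  have hGal : IsGalois k (kbar k' K) := IsAlgClosure.isGalois k (kbar k' K)
  -- the roots
  have hexu : ∀ A : ι → kbar k' K, ∃ u : AlgebraicClosure K, u ^ p = evl v A :=
    fun A => IsAlgClosed.exists_pow_nat_eq _ hp.pos
  choose u hu using hexu
  have hGW : ∀ A B, Good (k := k) (k' := k') (C := kbar k' K) p v A B → GoodW k v u A B := by
    intro A B h ω
    obtain ⟨h1, h2, h3⟩ := h (lft ω).symm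
    replace h2 : evl v (mv ω B) ≠ 0 := h2
    refine ⟨h1, h2, h3 _ ?_⟩
    change (u (mv ω A) / u (mv ω B)) ^ p * evl v (mv ω B) = evl v (mv ω A)
    rw [div_pow, hu, hu, div_mul_cancel₀ _ h2]
  obtain ⟨z, hz⟩ := exists_zE s hp' hu
  -- the exponent
  set cd := Fintype.card (k' →ₐ[k] kbar k' K) with hcd
  have hcd' : cd = Module.finrank k k' := AlgHom.card k k' (kbar k' K)
  obtain ⟨r', l', hr'⟩ : ∃ r' l' : ℕ, cd * r' = 1 + p * l' := by
    have h1 : Nat.Coprime cd p := by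
      rw [hcd']
      exact ((Nat.Prime.coprime_iff_not_dvd hp).2 hdeg).symm
    obtain ⟨m, hm⟩ := Nat.exists_mul_mod_eq_one_of_coprime h1 hp.one_lt
    refine ⟨m, cd * m / p, ?_⟩
    have h2 := Nat.mod_add_div (cd * m) p
    rw [hm.2] at h2
    exact h2.symm
  have hzz0 : ∀ A B, Good (k := k) (k' := k') (C := kbar k' K) p v A B → zz k z A B ≠ 0 :=
    fun A B h => zz_ne hz (hGW A B h)
  have hact : ∀ (σ : kbar k' K ≃ₐ[k] kbar k' K) (A B : ι → kbar k' K),
      Good (k := k) (k' := k') (C := kbar k' K) p v A B →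
      σ (zz k z A B) = zu z σ A B * zz k z (fun q => σ (A q)) (fun q => σ (B q)) :=
    fun σ A B h => zz_act' hp' hu hz (hGW A B h) σ
  have hfix : ∀ {σ : kbar k' K ≃ₐ[k] kbar k' K} {A : ι → kbar k' K}, (∀ q, σ (A q) = A q) →
      (fun q => σ (A q)) = A := fun h => funext h
  refine ⟨fun A B => zz k z A B ^ r', ⟨fun A B h => pow_ne_zero _ (hzz0 A B h), ?_, ?_, ?_, ?_, ?_⟩⟩
  · intro A B h
    apply BT.mem_adjoin_fixed
    intro σ hσ
    have h1 := hact σ A B h
    rw [hfix fun q => hσ _ (Or.inr (Or.inl ⟨q, rfl⟩)), hfix fun q => hσ _ (Or.inr (Or.inr ⟨q, rfl⟩))]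
      at h1
    change σ ((zz k z A B ^ r') ^ p) = (zz k z A B ^ r') ^ p
    rw [map_pow, map_pow, h1, mul_pow, mul_pow, ← pow_mul, ← pow_mul, mul_comm r' p, pow_mul, pow_mul,
      zu_pow hp' hu hz (hGW A B h), one_pow, one_mul]
  · intro A B h σ
    have h1 := hact σ A B h
    have h0 : zz k z (fun q => σ (A q)) (fun q => σ (B q)) ≠ 0 :=
      zz_ne hz (goodW_act (s := s) hp' hu (hGW A B h))
    change (σ (zz k z A B ^ r') / zz k z (fun q => σ (A q)) (fun q => σ (B q)) ^ r') ^ p = 1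
    rw [map_pow, h1, mul_pow, mul_div_assoc, div_self (pow_ne_zero _ h0), mul_one, ← pow_mul,
      mul_comm, pow_mul, zu_pow hp' hu hz (hGW A B h), one_pow]
  · intro A B D hAB hBD hAD
    apply BT.mem_adjoin_fixed
    intro σ hσ
    have hA : ∀ q, σ (A q) = A q := fun q => hσ _ (Or.inr (Or.inl (Or.inl ⟨q, rfl⟩)))
    have hB : ∀ q, σ (B q) = B q := fun q => hσ _ (Or.inr (Or.inl (Or.inr ⟨q, rfl⟩)))
    have hD : ∀ q, σ (D q) = D q := fun q => hσ _ (Or.inr (Or.inr ⟨q, rfl⟩))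
    have h1 := hact σ A B hAB
    have h2 := hact σ B D hBD
    have h3 := hact σ A D hAD
    rw [hfix hA, hfix hB] at h1
    rw [hfix hB, hfix hD] at h2
    rw [hfix hA, hfix hD] at h3
    have h4 := zu_mul hp' hu hz (hGW A B hAB) (hGW B D hBD) (hGW A D hAD) σ
    have h5 : zu z σ A D ≠ 0 := by
      intro h0
      have h6 := zu_pow hp' hu hz (hGW A D hAD) σ
      rw [h0, zero_pow hp'] at h6
      exact zero_ne_one h6
    have h6 := hzz0 A D hAD
    change σ (zz k z A B ^ r' * zz k z B D ^ r' / zz k z A D ^ r') = _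
    rw [← mul_pow, ← div_pow, map_pow, map_div₀, map_mul, h1, h2, h3, ← h4]
    congr 1
    rw [← h4] at h5
    have h7 := left_ne_zero_of_mul h5
    have h8 := right_ne_zero_of_mul h5
    field_simp
  · intro d r hd κ _ v' G W T hT hG0 hprod hG α hα i
    have hTC : algebraMap k (kbar k' K) T ≠ 0 := (_root_.map_ne_zero _).2 hT
    have hGWG : ∀ i j, i ≠ j → GoodW k v u (G i) (G j) := fun i j hij => hGW _ _ (hG i j hij)
    obtain ⟨ξ, hξ, hξσ⟩ := zz_prod hp' hd hu hz (fun ω => hprod (lft ω).symm)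
      (fun ω i => hG0 (lft ω).symm i) hGWG hα
    set S : Set (kbar k' K) := mu (kbar k' K) p ∪ ((⋃ j, Set.range (G j)) ∪ Set.range W) with hS
    have hP0 : ∏ j ∈ Finset.univ.erase i, zz k z (G j) (G i) ≠ 0 :=
      Finset.prod_ne_zero_iff.2 fun j hj => hzz0 _ _ (hG j i (Finset.mem_erase.1 hj).1)
    have hv : (ξ * α ^ cd) / ∏ j ∈ Finset.univ.erase i, zz k z (G j) (G i) ∈
        IntermediateField.adjoin k S := by
      apply BT.mem_adjoin_fixed
      intro σ hσ
      have hG' : ∀ j q, σ (G j q) = G j q := fun j q =>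
        hσ _ (Or.inr (Or.inl (Set.mem_iUnion.2 ⟨j, q, rfl⟩)))
      have hW' : ∀ q, σ (W q) = W q := fun q => hσ _ (Or.inr (Or.inr ⟨q, rfl⟩))
      have h1 := hξσ σ hG' hW' i
      have h2 : σ (∏ j ∈ Finset.univ.erase i, zz k z (G j) (G i)) =
          (∏ j ∈ Finset.univ.erase i, zu z σ (G j) (G i)) *
            ∏ j ∈ Finset.univ.erase i, zz k z (G j) (G i) := by
        rw [map_prod, ← Finset.prod_mul_distrib]
        refine Finset.prod_congr rfl fun j hj => ?_
        have h3 := hact σ (G j) (G i) (hG j i (Finset.mem_erase.1 hj).1)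
        rwa [hfix (hG' j), hfix (hG' i)] at h3
      have h3 : ∏ j ∈ Finset.univ.erase i, zu z σ (G j) (G i) ≠ 0 := by
        intro h0
        rw [h0, zero_mul] at h2
        exact hP0 ((map_eq_zero σ).1 h2)
      rw [map_div₀, ← h1, h2, mul_div_mul_left _ _ h3]
    have hξ0 : ξ ≠ 0 := by
      rintro rfl
      rw [zero_pow hp'] at hξ
      exact zero_ne_one hξ
    have hαc : α ^ (cd * r') = α * algebraMap k (kbar k' K) T ^ l' := by
      rw [hr', pow_add, pow_one, pow_mul, hα]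
    have h4 : α / ∏ j ∈ Finset.univ.erase i, zz k z (G j) (G i) ^ r' =
        ((ξ * α ^ cd) / ∏ j ∈ Finset.univ.erase i, zz k z (G j) (G i)) ^ r' *
          (ξ⁻¹ ^ r' * (algebraMap k (kbar k' K) T)⁻¹ ^ l') := by
      rw [Finset.prod_pow, div_pow, mul_pow, ← pow_mul, hαc, inv_pow, inv_pow]
      have h6 := pow_ne_zero r' hξ0
      have h7 := pow_ne_zero l' hTC
      field_simp
    change α / ∏ j ∈ Finset.univ.erase i, zz k z (G j) (G i) ^ r' ∈ _
    rw [h4]
    refine mul_mem (pow_mem hv _) (mul_mem (pow_mem (inv_mem ?_) _) (pow_mem (inv_mem ?_) _))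
    · exact IntermediateField.subset_adjoin k _ (Or.inl hξ)
    · exact IntermediateField.algebraMap_mem _ _
  · intro V hpinv A B h hroot σ hσ1 hσ2 hσA hσB
    have hp0 : (p : kbar k' K) ≠ 0 := Nat.cast_ne_zero.2 hp'
    have hμ : ∀ ξ : kbar k' K, ξ ^ p = 1 → σ ξ = ξ := fun ξ hξ =>
      BT.mu_fixed hp' hpinv hp0 (σ := (σ : kbar k' K ≃+* kbar k' K)) hσ2 hξ
    change σ (zz k z A B ^ r') = zz k z A B ^ r'
    rw [map_pow]
    congr 1
    refine BT.zz_inert hp' hu hz (hGW A B h) (V := V) ?_ hσA hσB hμ hσ1 hσ2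
    intro ω τ hτA hτB hτ
    obtain ⟨ρ, hρ⟩ := exists_ext s τ
    have hgp := hGW A B h ω
    have h1 := hroot (lft ω).symm τ hτA hτB hτ ρ hρ _ hgp.2.2 (by
      change (u (mv ω A) / u (mv ω B)) ^ p * evl v (mv ω B) = evl v (mv ω A)
      rw [div_pow, hu, hu, div_mul_cancel₀ _ hgp.2.1])
    -- the constant
    have hfixp : τ • ((mv ω A, mv ω B) : (ι → kbar k' K) × (ι → kbar k' K)) =
        (mv ω A, mv ω B) := Prod.ext (funext hτA) (funext hτB)
    obtain ⟨h2, h3⟩ := hz _ hgp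
    have h4 := h3 τ ρ hρ
    rw [hfixp] at h4
    change ρ (u (mv ω A) / u (mv ω B)) * _ = _ at h4
    rw [h1, mul_comm] at h4
    have h5 : u (mv ω A) / u (mv ω B) ≠ 0 :=
      div_ne_zero (BT.u_ne hp' hu hgp.1) (BT.u_ne hp' hu hgp.2.1)
    exact Subtype.ext (mul_right_cancel₀ h5 h4).symm

end Pool.Agent.TQ
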