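import Pool.Agent.Helper10.TQ.A5

/-!
# Sections over extensions: one family of constants for all pairs of vectors
-/

universe u

set_option linter.unusedSectionVars false

namespace Pool.Agent.TQ

open Pool.Agent.BT Pool.Agent.PL Pool.Agent.Helper91.Sect OE Pool.Agent.LT Pool.Agent.SC
  Pool.Agent.GC Pool.Agent.Helper37.UL

variable {k k' K : Type u} [Field k] [CharZero k] [Field k'] [Field K]
  [Algebra k k'] [Algebra k' K]
  [Algebra k (kbar k' K)] [IsScalarTower k k' (kbar k' K)] [FiniteDimensional k k']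
  [Algebra.IsAlgebraic k (kbar k' K)] {ι : Type} [Fintype ι]

/-- **One family of constants for all pairs of vectors.** -/
theorem exists_levG {p : ℕ} (hp : p.Prime) (hdeg : ¬ p ∣ Module.finrank k k')
    (s : GaloisSection k' K) (v : ι → K) (C : Type u) [Field C] [Algebra k C] [IsAlgClosure k C] :
    ∃ Z : (ι → C) → (ι → C) → C, LevG (k := k) (C := C) p s v Z := by
  classical
  have hC1 : IsAlgClosed C := IsAlgClosure.isAlgClosed k
  have hK1 : IsAlgClosure k (kbar k' K) := ⟨inferInstance, inferInstance⟩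
  let e : kbar k' K ≃ₐ[k] C := IsAlgClosure.equiv k (kbar k' K) C
  let e' : C ≃ₐ[k] kbar k' K := e.symm
  have hee' : ∀ w, e (e' w) = w := fun w => e.apply_symm_apply w
  have he'e : ∀ w, e' (e w) = w := fun w => e.symm_apply_apply w
  obtain ⟨Z, hZ⟩ := exists_levG_kbar (k := k) hp hdeg s v
  have hgood : ∀ A B : ι → C, Good (k := k) (k' := k') p v A B →
      Good (k := k) (k' := k') (C := kbar k' K) p v (fun q => e' (A q)) (fun q => e' (B q)) :=
    fun A B h φ => h (e'.trans φ)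
  have himμ : ∀ ξ ∈ mu (kbar k' K) p, e ξ ∈ mu C p := by
    intro ξ hξ
    change e ξ ^ p = 1
    rw [← map_pow, hξ, map_one]
  have haut : ∀ σ : C ≃ₐ[k] C, ∃ τ : kbar k' K ≃ₐ[k] kbar k' K, ∀ w, e (τ w) = σ (e w) := by
    intro σ
    refine ⟨(e.trans σ).trans e.symm, fun w => ?_⟩
    change e (e.symm (σ (e w))) = _
    rw [AlgEquiv.apply_symm_apply]
  refine ⟨fun A B => e (Z (fun q => e' (A q)) (fun q => e' (B q))), ⟨?_, ?_, ?_, ?_, ?_, ?_⟩⟩
  · intro A B h h0
    exact hZ.ne _ _ (hgood A B h) ((map_eq_zero e).1 h0)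
  · intro A B h
    rw [← map_pow]
    refine map_mem_adjoin (e : kbar k' K →ₐ[k] C) ?_ (hZ.pow _ _ (hgood A B h))
    rintro a (ha | ⟨q, rfl⟩ | ⟨q, rfl⟩)
    · exact Or.inl (himμ a ha)
    · exact Or.inr (Or.inl ⟨q, (hee' _).symm⟩)
    · exact Or.inr (Or.inr ⟨q, (hee' _).symm⟩)
  · intro A B h σ
    obtain ⟨τ, hτ⟩ := haut σ
    have h1 := hZ.equi _ _ (hgood A B h) τ
    have h2 : ∀ D : ι → C, (fun q => τ (e' (D q))) = fun q => e' (σ (D q)) := by
      intro D
      funext q
      apply e.injective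
      rw [hτ, hee', hee']
    rw [h2, h2] at h1
    change (σ (e (Z _ _)) / e (Z _ _)) ^ p = 1
    rw [← hτ, ← map_div₀, ← map_pow, h1, map_one]
  · intro A B D hAB hBD hAD
    rw [← map_mul, ← map_div₀]
    refine map_mem_adjoin (e : kbar k' K →ₐ[k] C) ?_
      (hZ.coc _ _ _ (hgood _ _ hAB) (hgood _ _ hBD) (hgood _ _ hAD))
    rintro a (ha | (⟨q, rfl⟩ | ⟨q, rfl⟩) | ⟨q, rfl⟩)
    · exact Or.inl (himμ a ha)
    · exact Or.inr (Or.inl (Or.inl ⟨q, (hee' _).symm⟩))
    · exact Or.inr (Or.inl (Or.inr ⟨q, (hee' _).symm⟩))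
    · exact Or.inr (Or.inr ⟨q, (hee' _).symm⟩)
  · intro d r hd κ _ v' G W T hT hG0 hprod hG α hα i
    have h1 : e' α ^ p = algebraMap k (kbar k' K) T := by
      rw [← map_pow, hα]
      exact e'.commutes T
    have h2 := hZ.prod hd (v' := v') (G := fun i q => e' (G i q)) (W := fun q => e' (W q)) hT
      (fun φ => hG0 (e'.trans φ)) (fun φ => hprod (e'.trans φ))
      (fun i j hij => hgood _ _ (hG i j hij)) (e' α) h1 i
    have h3 : α / ∏ j ∈ Finset.univ.erase i,
        e (Z (fun q => e' (G j q)) (fun q => e' (G i q))) =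
        (e : kbar k' K →ₐ[k] C) (e' α / ∏ j ∈ Finset.univ.erase i,
          Z (fun q => e' (G j q)) (fun q => e' (G i q))) := by
      change _ = e (e' α / ∏ j ∈ Finset.univ.erase i,
          Z (fun q => e' (G j q)) (fun q => e' (G i q)))
      rw [map_div₀, map_prod, hee']
    rw [h3]
    refine map_mem_adjoin (e : kbar k' K →ₐ[k] C) ?_ h2
    rintro a (ha | ha | ⟨q, rfl⟩)
    · exact Or.inl (himμ a ha)
    · obtain ⟨j, q, rfl⟩ := Set.mem_iUnion.1 ha
      exact Or.inr (Or.inl (Set.mem_iUnion.2 ⟨j, q, (hee' _).symm⟩))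
    · exact Or.inr (Or.inr ⟨q, (hee' _).symm⟩)
  · intro V hpinv A B h hroot σ hσ1 hσ2 hσA hσB
    obtain ⟨τ, hτ⟩ := haut σ
    set V' : ValuationSubring (kbar k' K) := V.comap ((e : kbar k' K ≃+* C) : kbar k' K →+* C)
      with hV'
    have hmem : ∀ w : kbar k' K, w ∈ V' ↔ e w ∈ V := fun w => Iff.rfl
    have hlt : ∀ w : kbar k' K, V'.valuation w < 1 ↔ V.valuation (e w) < 1 := fun w =>
      comap_val_lt' (e : kbar k' K ≃+* C) V w
    have h1 := hZ.inert V' (by rw [hmem, map_inv₀, map_natCast]; exact hpinv) _ _ (hgood A B h)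
      (fun φ τ' hi hj hI ρ hρ w hw hwe => by
        refine hroot (e'.trans φ) τ' hi hj ?_ ρ hρ w hw hwe
        have h2 : V.comap (((e'.trans φ).symm : kbar k' K ≃+* C) : kbar k' K →+* C) =
            V'.comap ((φ.symm : kbar k' K ≃+* kbar k' K) : kbar k' K →+* kbar k' K) := rfl
        rw [h2]
        exact hI) τ (fun w => by rw [hmem, hmem, hτ, hσ1]) (fun w hw => by
        rw [hlt, map_sub, hτ]
        exact hσ2 _ hw) (fun q => by
        apply e.injective
        rw [hτ, hee', hσA]) (fun q => by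
        apply e.injective
        rw [hτ, hee', hσB])
    change σ (e (Z _ _)) = e (Z _ _)
    rw [← hτ, h1]

end Pool.Agent.TQ
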