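import Pool.Agent.Helper10.TQ.Noe2
import Pool.Agent.Helper10.BT.Sol2
import Pool.Agent.Helper45.BT.Cert

/-!
# Project TQ (two quadrics): the second block
-/

universe u v

namespace Pool.Agent.TQ

open MvPolynomial Pool.Agent.BT

section aux

theorem prod_two {M : Type u} [CommMonoid M] {d : ℕ} (hd : d = 2) (F : Fin d → M) :
    ∏ i, F i = F (Fin.cast hd.symm 0) * F (Fin.cast hd.symm 1) := by
  subst hd
  exact Fin.prod_univ_two F

/-- The coefficients of `f0 γ T` are algebraic. -/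
theorem alg_f0 {A : Type u} [Field A] {L : Type v} [Field L] (φ : A →+* L) (K : Subfield L)
    {γ : Fin 2 → A} {T : A} (hT : φ T ∈ K) (hγ : ∀ i, IsAlgebraic K (φ (γ i))) {N : ℕ}
    (s : Fin (N + 2) →₀ ℕ) : IsAlgebraic K (φ (coeff s (inc N (PC.f0 γ T)))) := by
  let K' := algebraicClosure K L
  let γ' : Fin 2 → K' := fun i => ⟨φ (γ i), mem_algebraicClosure_iff.mpr (hγ i)⟩
  let T' : K' := ⟨φ T, mem_algebraicClosure_iff.mpr (isAlgebraic_algebraMap (⟨φ T, hT⟩ : K))⟩
  have h1 : MvPolynomial.map φ (inc N (PC.f0 γ T)) =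
      MvPolynomial.map (algebraMap K' L) (inc N (PC.f0 γ' T')) := by
    rw [inc_f0_two, inc_f0_two]
    simp only [map_sub, map_mul, map_pow, MvPolynomial.map_X, MvPolynomial.map_C]
    rfl
  rw [← coeff_map, h1, coeff_map]
  exact mem_algebraicClosure_iff.mp (coeff s (inc N (PC.f0 γ' T'))).2

end aux

/-- **The second block**, in the coordinates of the first: SOL and CERT. -/
theorem exists_block2 {A : Type u} [Field A] [CharZero A] {N t : ℕ} (ht : t ≤ N)
    {ds : Fin t → ℕ} {s₀ : Fin t} (hs₀ : ds s₀ = 2) {U : Type} [Fintype U] {e : U → ℕ} {T : A}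
    {γ : Fin 2 → A} {h₀ : ∀ u, MonV (N + 2) (e u) → A} {c : ℕ} (hc : 1 ≤ c)
    (hcert : CertV ht h₀ c) (f : MonV (N + 2) 2 → PowerSeries A)
    (rel : ∀ u : Fin t ⊕ U, MonV (N + 2) (Sum.elim ds e u) → PowerSeries A)
    (hf : pol (fun q => PowerSeries.constantCoeff (f q)) = inc N (PC.f0 γ T))
    (hrel : ∀ u q, PowerSeries.constantCoeff (rel u q) =
      relS (fun s q => (g0Q ht ds s₀ s q : A)) h₀ u q) :
    ∃ c' : ℕ, ∀ m, 2 + c' ≤ m →
      ∃ (G : Fin 2 → MonV (N + 2) (1 + 2 * m) → PowerSeries A)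
      (W : MonV (N + 2) (1 * (1 + 2 * m)) → PowerSeries A)
      (H : MonV (N + 2) (2 * (1 + 2 * m)) → PowerSeries A)
      (H' : Fin t ⊕ U → MonV (N + 2) (2 * (1 + 2 * m)) → PowerSeries A),
      pol (G 0) * pol (G 1) = pol W ^ 2 + comb f rel H H' ∧
      -- invariance
      (∀ ρ : A ≃+* A, (∀ q, PowerSeries.map (ρ : A →+* A) (f q) = f q) →
        (∀ u q, PowerSeries.map (ρ : A →+* A) (rel u q) = rel u q) →
        (∀ i q, PowerSeries.map (ρ : A →+* A) (G i q) = G i q) ∧
        (∀ q, PowerSeries.map (ρ : A →+* A) (W q) = W q) ∧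
        (∀ q, PowerSeries.map (ρ : A →+* A) (H q) = H q) ∧
        (∀ u q, PowerSeries.map (ρ : A →+* A) (H' u q) = H' u q)) ∧
      -- algebraicity
      (∀ {L : Type u} [Field L] (φ : PowerSeries A →+* L), Function.Injective φ →
        ∀ K : Subfield L, φ (PowerSeries.C T) ∈ K →
        (∀ i, IsAlgebraic K (φ (PowerSeries.C (γ i)))) → (∀ q, φ (f q) ∈ K) →
        (∀ u q, φ (rel u q) ∈ K) →
        (∀ u q, φ (PowerSeries.C (PowerSeries.constantCoeff (rel u q))) ∈ K) →
        (∀ i q, IsAlgebraic K (φ (G i q))) ∧ (∀ q, IsAlgebraic K (φ (W q))) ∧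
        (∀ q, IsAlgebraic K (φ (H q))) ∧ (∀ u q, IsAlgebraic K (φ (H' u q)))) ∧
      -- the certificates
      ∀ {L K : Type u} [Field L] [Field K] (ψ : PowerSeries A →+* L), Function.Injective ψ →
        ∀ (ι : K →+* L) {fK : MonV (N + 2) 2 → K}
        {relK : ∀ u : Fin t ⊕ U, MonV (N + 2) (Sum.elim ds e u) → K}
        {GK : Fin 2 → MonV (N + 2) (1 + 2 * m) → K},
        (∀ a, ι (fK a) = ψ (f a)) → (∀ u a, ι (relK u a) = ψ (rel u a)) →
        (∀ i a, ι (GK i a) = ψ (G i a)) → ∀ M₀ : ℕ,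
        ∃ M : ℕ, M₀ ≤ M ∧ 1 + 2 * m ≤ M ∧ 1 ≤ M ∧ FinX fK relK M ∧
          Cop (GK 0) (GK 1) fK relK M ∧
          ∃ (D : Fin 2 → MonV (N + 2) M → K) (D' : Fin 2 → MonV (N + 2) M → K)
            (D'' : Fin 2 → Fin t ⊕ U → MonV (N + 2) M → K) (c : Fin 2 → Fin (M + 1) → K),
            ∀ i, c i ≠ 0 ∧
              pol (D i) * pol (GK i) + comb fK relK (D' i) (D'' i) = polX (c i) := by
  classical
  set π := piU ht s₀ with hπ
  have hπs : π.symm = π := piU_symm s₀
  have hπ0 : π 0 = 0 := piU_zero s₀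
  have hrr : ∀ {X : Type u} {D : ℕ} (g : MonV (N + 2) D → X), ren π (ren π g) = g := by
    intro X D g
    have h := ren_symm_ren π g
    rwa [hπs] at h
  have hππ : ∀ {R : Type u} [CommRing R] (P : MvPolynomial (Fin (N + 2)) R),
      rename π (rename π P) = P := by
    intro R _ P
    rw [rename_rename]
    have h : (π : Fin (N + 2) → Fin (N + 2)) ∘ π = id := by
      funext v
      change π (π v) = v
      conv_lhs => rw [← hπs]
      exact π.symm_apply_apply v
    rw [h, rename_id]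
    rfl
  have h2d : ds s₀ = 2 * 1 := by rw [hs₀]
  have hd0 : 0 < ds s₀ := by omega
  -- the constant terms
  obtain ⟨c', hNoe⟩ := noe2Q ht hs₀ hc hcert hf (rel := fun u q =>
    PowerSeries.constantCoeff (rel u q)) hrel
  -- the swapped relations
  let g' : MonV (N + 2) (ds s₀) → PowerSeries A := ren π (rel (Sum.inl s₀))
  let rel' : ∀ u : Fin t ⊕ U, MonV (N + 2) (Sum.elim ds e u) → PowerSeries A :=
    fun u => ren π (swR s₀ hs₀ f rel u)
  let γ₂ : Fin (ds s₀) → A := fun j => 2 * (j : ℕ)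
  have hg' : pol (fun q => PowerSeries.constantCoeff (g' q)) = inc N (PC.f0 γ₂ 1) := by
    have h1 : (fun q => PowerSeries.constantCoeff (g' q)) =
        ren π (fun q : MonV (N + 2) (ds s₀) => ((g0Q ht ds s₀ s₀ q : ℤ) : A)) := by
      funext q
      exact hrel (Sum.inl s₀) _
    rw [h1, pol_ren, pol_g0Q hs₀, inc_f0_d N hs₀, spQ, if_pos rfl, map_sub, map_mul, map_sub,
      map_pow, rename_X, rename_X, hπ0, hπ, piU_uix, map_ofNat]
  have hNoe' : Noe (fun u q => PowerSeries.constantCoeff (rel' u q)) c' := by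
    have h1 : (fun u q => PowerSeries.constantCoeff (rel' u q)) =
        fun u => ren π (swR s₀ hs₀ (fun q => PowerSeries.constantCoeff (f q))
          (fun u q => PowerSeries.constantCoeff (rel u q)) u) := by
      funext u q
      exact swR_map PowerSeries.constantCoeff u _
    rw [h1]
    exact hNoe
  have hγ₂ : Function.Injective γ₂ := by
    intro i j hij
    have h1 : (2 : A) * (i : ℕ) = 2 * (j : ℕ) := hij
    have h2 : ((i : ℕ) : A) = (j : ℕ) := mul_left_cancel₀ two_ne_zero h1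
    exact Fin.ext (Nat.cast_injective h2)
  have hγ₂1 : ∀ i j, γ₂ i ≠ γ₂ j + 1 := by
    intro i j hij
    have h1 : (((2 * (i : ℕ) : ℕ)) : A) = ((2 * (j : ℕ) + 1 : ℕ) : A) := by
      push_cast
      exact hij
    have h2 := Nat.cast_injective h1
    omega
  refine ⟨c', fun m hm => ?_⟩
  obtain ⟨G', W', H₀, H₀', hid, hG0, hequi, halg⟩ := exists_sol (m := m) Nat.prime_two h2d hd0
    (by omega : ds s₀ + c' ≤ m) (one_ne_zero : (1 : A) ≠ 0) hγ₂ hγ₂1 g' rel' hg' hNoe'
  have hdH : ds s₀ * (1 + 2 * m) = 2 * (1 + 2 * m) := by rw [hs₀]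
  refine ⟨fun i => ren π (G' (Fin.cast hs₀.symm i)), ren π W', castM hdH (ren π (H₀' (Sum.inl s₀))),
    fun u => castM hdH (swH s₀ (ren π H₀) (fun u => ren π (H₀' u)) u), ?_, ?_, ?_, ?_⟩
  · -- the identity
    have h1 := congrArg (rename π) hid
    rw [map_prod, prod_two hs₀, map_add, map_mul, map_pow, map_one, rename_C, map_one, one_mul,
      ← pol_ren, ← pol_ren, ← pol_ren, ← comb_ren] at h1
    have h2 : (fun u => ren π (rel' u)) = swR s₀ hs₀ f rel := by
      funext u
      exact hrr _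
    have h3 : ren π g' = rel (Sum.inl s₀) := hrr _
    rw [h2, h3] at h1
    have h4 := comb_swR s₀ hs₀ f rel (ren π H₀) (fun u => ren π (H₀' u))
    refine h1.trans (congrArg₂ (· + ·) rfl (h4.trans ?_))
    have h5 : ∀ {a b : ℕ} (hab : a = b) (H : MonV (N + 2) a → PowerSeries A)
        (H' : Fin t ⊕ U → MonV (N + 2) a → PowerSeries A),
        comb f rel H H' = comb f rel (castM hab H) (fun u => castM hab (H' u)) := by
      intro a b hab H H'
      subst hab
      rfl
    exact h5 hdH _ _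
  · -- invariance
    intro ρ hρf hρrel
    have h1 := hequi ρ 1 (map_one ρ) (fun i => by
      change ρ (2 * ((i : ℕ) : A)) = _
      rw [map_mul, map_ofNat, map_natCast]
      rfl) (fun q => hρrel (Sum.inl s₀) _)
      (fun u q => swR_mem (P := fun y => PowerSeries.map (ρ : A →+* A) y = y) hρf hρrel u _)
    obtain ⟨h2, h3, h4, h5⟩ := h1
    refine ⟨fun i q => h2 _ _, fun q => h3 _, fun q => h5 _ _, fun u q => ?_⟩
    have h6 : ∀ u, ∀ q, PowerSeries.map (ρ : A →+* A)
        (swH s₀ (ren π H₀) (fun u => ren π (H₀' u)) u q) =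
          swH s₀ (ren π H₀) (fun u => ren π (H₀' u)) u q :=
      swH_mem (P := fun y : MonV (N + 2) (ds s₀ * (1 + 2 * m)) → PowerSeries A =>
        ∀ q, PowerSeries.map (ρ : A →+* A) (y q) = y q) (fun q => h4 _) fun u q => h5 u _
    exact h6 u _
  · -- algebraicity
    intro L _ φ hφ K hTK hγK hfK hrelK hrelK0
    let K' : Subfield L := (algebraicClosure K L).toSubfield
    have hK'1 : ∀ {y : L}, IsAlgebraic K y → y ∈ K' := fun h => mem_algebraicClosure_iff.mpr h
    have hK'2 : ∀ {y : L}, y ∈ K → y ∈ K' := fun {y} h =>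
      hK'1 (isAlgebraic_algebraMap (⟨y, h⟩ : K))
    have hK' : ∀ y : L, IsAlgebraic K' y → IsAlgebraic K y := by
      intro y hy
      exact (isIntegral_trans (R := K) (A := algebraicClosure K L) _ hy.isIntegral).isAlgebraic
    have hcf : ∀ q, φ (PowerSeries.C (PowerSeries.constantCoeff (f q))) ∈ K' := by
      intro q
      have h1 : PowerSeries.constantCoeff (f q) = coeff q.1 (inc N (PC.f0 γ T)) := by
        rw [← hf]
        exact (coeff_pol (fun q => PowerSeries.constantCoeff (f q)) q).symm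
      rw [h1]
      exact hK'1 (alg_f0 (φ.comp PowerSeries.C) K hTK hγK q.1)
    obtain ⟨h1, h2, h3, h4⟩ := halg φ hφ K' (by rw [map_one, map_one]; exact one_mem _)
      (fun i => by
        have h5 : φ (PowerSeries.C (γ₂ i)) = ((2 * (i : ℕ) : ℕ) : L) := by
          change φ (PowerSeries.C (2 * ((i : ℕ) : A))) = _
          rw [map_mul, map_mul, map_ofNat, map_ofNat, map_natCast, map_natCast, Nat.cast_mul,
            Nat.cast_ofNat]
        rw [h5]
        exact isAlgebraic_natCast (R := K') _)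
      (fun q => hK'2 (hrelK (Sum.inl s₀) _))
      (fun u q => swR_mem (P := fun y => φ y ∈ K') (fun q => hK'2 (hfK q))
        (fun u q => hK'2 (hrelK u q)) u _)
      (fun u q => swR_mem (P := fun y => φ (PowerSeries.C (PowerSeries.constantCoeff y)) ∈ K') hcf
        (fun u q => hK'2 (hrelK0 u q)) u _)
    refine ⟨fun i q => hK' _ (h1 _ _), fun q => hK' _ (h2 _), fun q => hK' _ (h4 _ _),
      fun u q => ?_⟩
    have h6 : ∀ u, ∀ q, IsAlgebraic K (φ (swH s₀ (ren π H₀) (fun u => ren π (H₀' u)) u q)) :=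
      swH_mem (P := fun y : MonV (N + 2) (ds s₀ * (1 + 2 * m)) → PowerSeries A =>
        ∀ q, IsAlgebraic K (φ (y q))) (fun q => hK' _ (h3 _)) fun u q => hK' _ (h4 u _)
    exact h6 u _
  · -- the certificates
    intro L K _ _ ψ hψ ι fK relK GK hfK hrelK hGK M₀
    let fK' : MonV (N + 2) (ds s₀) → K := ren π (relK (Sum.inl s₀))
    let relK' : ∀ u : Fin t ⊕ U, MonV (N + 2) (Sum.elim ds e u) → K :=
      fun u => ren π (swR s₀ hs₀ fK relK u)
    let GK' : Fin (ds s₀) → MonV (N + 2) (1 + 2 * m) → K := fun i => ren π (GK (Fin.cast hs₀ i))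
    have h1 : ∀ a, ι (fK' a) = ψ (g' a) := fun a => hrelK (Sum.inl s₀) _
    have e1 : (fun q => ι (fK q)) = fun q => ψ (f q) := funext hfK
    have e2 : (fun u q => ι (relK u q)) = fun u q => ψ (rel u q) :=
      funext fun u => funext fun q => hrelK u q
    have h2 : ∀ u a, ι (relK' u a) = ψ (rel' u a) := by
      intro u a
      have h6 := swR_map (s₀ := s₀) (hs₀ := hs₀) (f := fK) (rel := relK) ι u
        ⟨a.1.mapDomain π.symm, (degree_mapDomain_perm π.symm a.1).le.trans a.2⟩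
      have h7 := swR_map (s₀ := s₀) (hs₀ := hs₀) (f := f) (rel := rel) ψ u
        ⟨a.1.mapDomain π.symm, (degree_mapDomain_perm π.symm a.1).le.trans a.2⟩
      rw [e1, e2] at h6
      exact h6.trans h7.symm
    have h3 : ∀ i a, ι (GK' i a) = ψ (G' i a) := by
      intro i a
      have h4 := hGK (Fin.cast hs₀ i) ⟨a.1.mapDomain π.symm,
        (degree_mapDomain_perm π.symm a.1).le.trans a.2⟩
      have h5 : Fin.cast hs₀.symm (Fin.cast hs₀ i) = i := Fin.ext rfl
      have h6 : ren π (ren π (G' i)) a = G' i a := by rw [hrr]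
      refine h4.trans ?_
      rw [← h6]
      change ψ (ren π (G' (Fin.cast hs₀.symm (Fin.cast hs₀ i))) _) = _
      rw [h5]
      rfl
    obtain ⟨M, hM0, hnM, hM1, hfin, hcop, D, D', D'', cc, hD⟩ := exists_cert (fK := fK')
      (relK := relK') (GK := GK') Nat.prime_two hd0
      (one_ne_zero : (1 : A) ≠ 0) hγ₂ hγ₂1 hg' hNoe' hG0 ψ hψ ι h1 h2 h3 M₀
    have hcop' : ∀ i j : Fin 2, i ≠ j → Cop (GK i) (GK j) fK relK M := by
      intro i j hij
      have h4 := hcop (Fin.cast hs₀.symm i) (Fin.cast hs₀.symm j) (fun h => hij (by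
        have h2 := congrArg Fin.val h
        exact Fin.ext h2))
      have h5 : Cop (GK i) (GK j) (relK (Sum.inl s₀) : MonV (N + 2) (ds s₀) → K)
          (swR s₀ hs₀ fK relK) M := Cop.of_ren (π := π) h4
      exact Cop.of_swR (hs₀ := hs₀) h5
    have hfin' : FinX fK relK M := by
      have h5 : FinX (relK (Sum.inl s₀) : MonV (N + 2) (ds s₀) → K)
          (swR s₀ hs₀ fK relK) M := FinX.of_ren (π := π) hπ0 hfin
      exact FinX.of_swR (hs₀ := hs₀) h5
    refine ⟨M, hM0, hnM, hM1, hfin', hcop' 0 1 (by decide),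
      fun i => ren π (D (Fin.cast hs₀.symm i)),
      fun i => ren π (D'' (Fin.cast hs₀.symm i) (Sum.inl s₀)),
      fun i => swH s₀ (ren π (D' (Fin.cast hs₀.symm i)))
        (fun u => ren π (D'' (Fin.cast hs₀.symm i) u)),
      fun i => cc (Fin.cast hs₀.symm i), fun i => ⟨(hD _).1, ?_⟩⟩
    have h4 := congrArg (rename π) (hD (Fin.cast hs₀.symm i)).2
    have h5 : ren π (GK' (Fin.cast hs₀.symm i)) = GK i := hrr (GK i)
    have h6 : ren π fK' = relK (Sum.inl s₀) := hrr _
    have h7 : (fun u => ren π (relK' u)) = swR s₀ hs₀ fK relK := funext fun u => hrr _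
    rw [rename_polX hπ0, map_add, map_mul, ← pol_ren, ← pol_ren, ← comb_ren, h5, h6, h7] at h4
    have h8 := comb_swR s₀ hs₀ fK relK (ren π (D' (Fin.cast hs₀.symm i)))
      (fun u => ren π (D'' (Fin.cast hs₀.symm i) u))
    exact (congrArg₂ (· + ·) rfl h8.symm).trans h4

end Pool.Agent.TQ
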