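import Pool.Agent.Helper13.BT.L1
import Pool.Agent.Helper37.BT.Gen

/-!
# Project TQ (two quadrics): definitions

`p = 2`, the main form has degree 2 and one of the other variable forms has degree 2.  There are four
functions `G i : Fin 4` of the same degree `n`, `G 0 * G 1 = T * W ^ 2`, `G 2 * G 3 = W₂ ^ 2` modulo the
relations.
-/

universe u v

set_option linter.unusedSectionVars false

namespace Pool.Agent.TQ

open MvPolynomial Pool.Agent.BT Pool.Agent.LT Pool.Agent.SC Pool.Agent.GC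
  Pool.Agent.Helper91.Sect
open Pool.Agent.PL (mu)
open Pool.Agent.Helper37.UL (Inert)

/-- The certificate of the fixed relations `h`: there is no common zero of `h` on the projective linear
space `z = X s = 0`, `s < t + 2`. -/
def CertV {K : Type u} [Field K] {N t : ℕ} (ht : t ≤ N) {U : Type} [Fintype U] {e : U → ℕ}
    (h : ∀ u, MonV (N + 2) (e u) → K) (c : ℕ) : Prop :=
  ∀ q : MonV (N + 2) c, ∃ (A : MonV (N + 2) (c - 1) → K)
    (B : Fin (t + 2) → MonV (N + 2) (c - 1) → K) (b : U → MvPolynomial (Fin (N + 2)) K),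
    (∀ u, b u ≠ 0 → (b u).totalDegree + e u ≤ c) ∧
    pol A + ∑ s, pol (B s) * X (Fin.castLE (by omega) s) + ∑ u, b u * pol (h u) =
      monomial q.1 1

/-- The constants `z i j`: their Galois properties. -/
structure LevZQ {k C : Type u} [Field k] [Field C] [Algebra k C] {ι κ : Type}
    (G : Fin 4 → ι → C) (W : κ → C) (T : k) (z : Fin 4 → Fin 4 → C) : Prop where
  ne : ∀ i j, i ≠ j → z i j ≠ 0
  pow : ∀ i j, i ≠ j → z i j ^ 2 ∈ IntermediateField.adjoin k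
    (mu C 2 ∪ (Set.range (G i) ∪ Set.range (G j)))
  equi : ∀ (σ : C ≃ₐ[k] C) (i j i' j' : Fin 4), i ≠ j → i' ≠ j' → (∀ q, σ (G i q) = G i' q) →
    (∀ q, σ (G j q) = G j' q) → σ (z i j) / z i' j' ∈ IntermediateField.adjoin k
      (mu C 2 ∪ (Set.range (G i') ∪ Set.range (G j')))
  coc : ∀ i j l, i ≠ j → j ≠ l → i ≠ l → z i j * z j l / z i l ∈ IntermediateField.adjoin k
    (mu C 2 ∪ (Set.range (G i) ∪ Set.range (G j) ∪ Set.range (G l)))
  prod : ∀ α : C, α ^ 2 = algebraMap k C T → α / z 1 0 ∈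
    IntermediateField.adjoin k (mu C 2 ∪ ((⋃ j, Set.range (G j)) ∪ Set.range W))

/-- The constants `z i j` and the inertia groups at good places. -/
def LevIQ (k₁ : Type u) {k C : Type u} [Field k₁] [Field k] [Field C] [Algebra k₁ k] [Algebra k C]
    {N d n M M₃ : ℕ} {U : Type} [Fintype U] {e : U → ℕ} (f : MonV (N + 2) d → k)
    (rel : ∀ u, MonV (N + 2) (e u) → k) (G : Fin 4 → MonV (N + 2) n → C)
    (D : Fin 4 → MonV (N + 2) M → C) (c : Fin 4 → Fin (M₃ + 1) → C) (z : Fin 4 → Fin 4 → C) :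
    Prop :=
  ∀ {M₁ M₂ m e₁ e₂ : ℕ} {ρ : Fin (N + 2) → ℕ} {S : ∀ v, Fin (ρ v) → Fin (M₂ + 1) → k}
    {R V V' : Fin (M₁ + 1) → k} {A B : Fin (N + 2) → Fin (M₂ + 1) → Fin (M₂ + 1) → k}
    {H : Fin (N + 2) → MonV (N + 2) m → k} {H' : Fin (N + 2) → U → MonV (N + 2) m → k},
    DiscV S R V V' A B e₁ →
    (∀ v, subV N v (monYX (S v)) ^ e₂ = comb f rel (H v) (H' v)) →
    ∀ P : ValuationSubring C, P ≠ ⊤ → (∀ a : k₁, algebraMap k C (algebraMap k₁ k a) ∈ P) →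
    GoodV P S R V V' B →
    ∀ i j, i ≠ j → (∀ q, G i q ∈ P) → (∀ q, G j q ∈ P) → (∀ q, D i q ∈ P) → (∀ q, D j q ∈ P) →
    (∃ l, c i l ≠ 0 ∧ (c i l)⁻¹ ∈ P) → (∃ l, c j l ≠ 0 ∧ (c j l)⁻¹ ∈ P) →
    ∀ σ : C ≃+* C, Inert (algebraMap k C).fieldRange P σ → (∀ q, σ (G i q) = G i q) →
      (∀ q, σ (G j q) = G j q) → σ (z i j) = z i j

/-- The property of the curve `f = rel = 0` that all certificates have constants `z i j`. -/
def HasLevQ (k₁ : Type u) {k : Type u} (C : Type u) [Field k₁] [Field k] [Field C] [Algebra k₁ k]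
    [Algebra k C] {N d : ℕ} {U : Type} [Fintype U] {e : U → ℕ}
    (f : MonV (N + 2) d → k) (rel : ∀ u, MonV (N + 2) (e u) → k) : Prop :=
  ∀ {n M : ℕ}, n ≤ M →
    ∀ {G : Fin 4 → MonV (N + 2) n → C} {nW nW₂ : ℕ} {W : MonV (N + 2) nW → C}
      {W₂ : MonV (N + 2) nW₂ → C} {a b a₂ b₂ : ℕ}
      {H : MonV (N + 2) a → C} {H' : U → MonV (N + 2) b → C}
      {H₂ : MonV (N + 2) a₂ → C} {H₂' : U → MonV (N + 2) b₂ → C} {T : k}, T ≠ 0 →
    pol (G 0) * pol (G 1) = MvPolynomial.C (algebraMap k C T) * pol W ^ 2 +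
      comb (fun q => algebraMap k C (f q)) (fun u q => algebraMap k C (rel u q)) H H' →
    pol (G 2) * pol (G 3) = pol W₂ ^ 2 +
      comb (fun q => algebraMap k C (f q)) (fun u q => algebraMap k C (rel u q)) H₂ H₂' →
    Cop (G 0) (G 1) (fun q => algebraMap k C (f q)) (fun u q => algebraMap k C (rel u q)) M →
    Cop (G 2) (G 3) (fun q => algebraMap k C (f q)) (fun u q => algebraMap k C (rel u q)) M →
    ∀ {M₂ M₂' M₃ : ℕ} {D : Fin 4 → MonV (N + 2) M₂ → C} {D' : Fin 4 → MonV (N + 2) M₂' → C}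
      {D'' : Fin 4 → U → MonV (N + 2) M₂' → C} {c : Fin 4 → Fin (M₃ + 1) → C}, (∀ i, c i ≠ 0) →
    (∀ i, pol (D i) * pol (G i) + comb (fun q => algebraMap k C (f q))
      (fun u q => algebraMap k C (rel u q)) (D' i) (D'' i) = polX (c i)) →
    ∃ z : Fin 4 → Fin 4 → C, LevZQ G W T z ∧ LevIQ k₁ f rel G D c z

/-- The conclusion of GEO over the explicit field, for two quadrics. -/
def Geo1Q (κ E : Type u) [Field κ] [Field E] [Algebra κ E] (T : E) (N m : ℕ) {t : ℕ}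
    (ds : Fin t → ℕ) {U : Type} [Fintype U] {e : U → ℕ} (w : Fin (m + 2) → E)
    (h : ∀ u, MonV (N + 2) (e u) → E) : Prop :=
    ∃ (S₁ : Type u) (_ : Field S₁) (_ : Algebra (FFV E (N + 2) 2 m ds) S₁) (n M : ℕ)
      (G : Fin 4 → MonV (N + 2) n → algebraicClosure (FFV E (N + 2) 2 m ds) S₁)
      (W W₂ : MonV (N + 2) (1 * n) → algebraicClosure (FFV E (N + 2) 2 m ds) S₁)
      (H H₂ : MonV (N + 2) M → algebraicClosure (FFV E (N + 2) 2 m ds) S₁)
      (H' H₂' : Fin t ⊕ U → MonV (N + 2) M → algebraicClosure (FFV E (N + 2) 2 m ds) S₁)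
      (D D' : Fin 4 → MonV (N + 2) M → algebraicClosure (FFV E (N + 2) 2 m ds) S₁)
      (D'' : Fin 4 → Fin t ⊕ U → MonV (N + 2) M → algebraicClosure (FFV E (N + 2) 2 m ds) S₁)
      (c : Fin 4 → Fin (M + 1) → algebraicClosure (FFV E (N + 2) 2 m ds) S₁) (τ ρ : S₁ ≃+* S₁)
      (Q : Subfield S₁),
      n ≤ M ∧ 1 ≤ M ∧ IsAlgClosed S₁ ∧
      -- the identities
      pol (G 0) * pol (G 1) = C (algebraMap (FFV E (N + 2) 2 m ds)
        (algebraicClosure (FFV E (N + 2) 2 m ds) S₁) (cF (N + 2) 2 m ds T)) * pol W ^ 2 +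
        comb (fun a => algebraMap (FFV E (N + 2) 2 m ds) (algebraicClosure (FFV E (N + 2) 2 m ds) S₁) (fF w a))
          (fun u a => algebraMap (FFV E (N + 2) 2 m ds) (algebraicClosure (FFV E (N + 2) 2 m ds) S₁) (relF w h u a))
          H H' ∧
      pol (G 2) * pol (G 3) = pol W₂ ^ 2 +
        comb (fun a => algebraMap (FFV E (N + 2) 2 m ds) (algebraicClosure (FFV E (N + 2) 2 m ds) S₁) (fF w a))
          (fun u a => algebraMap (FFV E (N + 2) 2 m ds) (algebraicClosure (FFV E (N + 2) 2 m ds) S₁) (relF w h u a))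
          H₂ H₂' ∧
      FinX (fF (ds := ds) w : MonV (N + 2) 2 → FFV E (N + 2) 2 m ds) (relF w h) M ∧
      Cop (G 0) (G 1)
        (fun a => algebraMap (FFV E (N + 2) 2 m ds) (algebraicClosure (FFV E (N + 2) 2 m ds) S₁) (fF w a))
        (fun u a => algebraMap (FFV E (N + 2) 2 m ds) (algebraicClosure (FFV E (N + 2) 2 m ds) S₁) (relF w h u a)) M ∧
      Cop (G 2) (G 3)
        (fun a => algebraMap (FFV E (N + 2) 2 m ds) (algebraicClosure (FFV E (N + 2) 2 m ds) S₁) (fF w a))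
        (fun u a => algebraMap (FFV E (N + 2) 2 m ds) (algebraicClosure (FFV E (N + 2) 2 m ds) S₁) (relF w h u a)) M ∧
      (∀ i, c i ≠ 0 ∧ pol (D i) * pol (G i) +
        comb (fun a => algebraMap (FFV E (N + 2) 2 m ds) (algebraicClosure (FFV E (N + 2) 2 m ds) S₁) (fF w a))
          (fun u a => algebraMap (FFV E (N + 2) 2 m ds) (algebraicClosure (FFV E (N + 2) 2 m ds) S₁) (relF w h u a))
          (D' i) (D'' i) = polX (c i)) ∧
      -- the automorphism `τ`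
      (∀ y : FFV E (N + 2) 2 m ds, τ (algebraMap _ S₁ y) = algebraMap _ S₁ y) ∧
      (∀ y : κ, algebraMap (FFV E (N + 2) 2 m ds) S₁ (cF (N + 2) 2 m ds (algebraMap κ E y)) ∈ Q) ∧
      (∀ i, algebraMap (FFV E (N + 2) 2 m ds) S₁ (xF i) ∈ Q) ∧
      (∀ y, IsAlgebraic Q y → τ y = y) ∧
      (∀ i a, τ (G i a : S₁) = G i a) ∧ (∀ a, τ (W a : S₁) = W a) ∧
      (∀ α : S₁, α ^ 2 = algebraMap (FFV E (N + 2) 2 m ds) S₁ (cF (N + 2) 2 m ds T) → τ α ≠ α) ∧
      -- the transposition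
      (∀ y : FFV E (N + 2) 2 m ds, ρ (algebraMap _ S₁ y) = algebraMap _ S₁ y) ∧
      (∀ a, ρ (G 0 a : S₁) = G 1 a) ∧ (∀ a, ρ (G 2 a : S₁) = G 2 a) ∧
      ∀ y, τ (ρ y) = ρ (τ y)

/-- The conclusion of GEO, for two quadrics. -/
def GeoQ {S : Type u} [Field S] (κ K0 : Subfield S) (T : S) {N t m : ℕ} {ds : Fin t → ℕ}
    (x : IxV (N + 2) 2 ds × Fin (m + 2) → S) (w : Fin (m + 2) → S) {U : Type} [Fintype U]
    {e : U → ℕ} (h : ∀ u, MonV (N + 2) (e u) → S) : Prop :=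
    ∃ (n M : ℕ) (G : Fin 4 → MonV (N + 2) n → S) (W W₂ : MonV (N + 2) (1 * n) → S)
      (H H₂ : MonV (N + 2) M → S) (H' H₂' : Fin t ⊕ U → MonV (N + 2) M → S)
      (D D' : Fin 4 → MonV (N + 2) M → S) (D'' : Fin 4 → Fin t ⊕ U → MonV (N + 2) M → S)
      (c : Fin 4 → Fin (M + 1) → S) (τ ρ : S ≃+* S),
      n ≤ M ∧ 1 ≤ M ∧
      -- algebraicity
      (∀ i a, IsAlgebraic K0 (G i a)) ∧ (∀ a, IsAlgebraic K0 (W a)) ∧ (∀ a, IsAlgebraic K0 (W₂ a)) ∧
      (∀ a, IsAlgebraic K0 (H a)) ∧ (∀ a, IsAlgebraic K0 (H₂ a)) ∧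
      (∀ u a, IsAlgebraic K0 (H' u a)) ∧ (∀ u a, IsAlgebraic K0 (H₂' u a)) ∧
      (∀ i a, IsAlgebraic K0 (D i a)) ∧ (∀ i a, IsAlgebraic K0 (D' i a)) ∧
      (∀ i u a, IsAlgebraic K0 (D'' i u a)) ∧ (∀ i a, IsAlgebraic K0 (c i a)) ∧
      -- the identities
      pol (G 0) * pol (G 1) = C T * pol W ^ 2 + comb (mainV x w) (relS (othV x w) h) H H' ∧
      pol (G 2) * pol (G 3) = pol W₂ ^ 2 + comb (mainV x w) (relS (othV x w) h) H₂ H₂' ∧
      (∃ (FA FB : MonV (N + 2) M → MonV (N + 2) (M - 1) → S) (FH : MonV (N + 2) M → MonV (N + 2) M → S)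
        (FH' : MonV (N + 2) M → Fin t ⊕ U → MonV (N + 2) M → S),
        (∀ q a, FA q a ∈ K0) ∧ (∀ q a, FB q a ∈ K0) ∧ (∀ q a, FH q a ∈ K0) ∧
        (∀ q u a, FH' q u a ∈ K0) ∧
        ∀ q, pol (FA q) * X 0 + pol (FB q) +
          comb (mainV x w) (relS (othV x w) h) (FH q) (FH' q) = monomial q.1 1) ∧
      Cop (G 0) (G 1) (mainV x w) (relS (othV x w) h) M ∧
      Cop (G 2) (G 3) (mainV x w) (relS (othV x w) h) M ∧
      (∀ i, c i ≠ 0 ∧ pol (D i) * pol (G i) +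
        comb (mainV x w) (relS (othV x w) h) (D' i) (D'' i) = polX (c i)) ∧
      -- the automorphism `τ`
      (∀ y ∈ K0, τ y = y) ∧
      (∀ y, IsAlgebraic (Subfield.closure ((κ : Set S) ∪ Set.range x)) y → τ y = y) ∧
      (∀ i a, τ (G i a) = G i a) ∧ (∀ a, τ (W a) = W a) ∧
      (∀ α : S, α ^ 2 = T → τ α ≠ α) ∧
      -- the transposition
      (∀ y ∈ K0, ρ y = y) ∧ (∀ a, ρ (G 0 a) = G 1 a) ∧ (∀ a, ρ (G 2 a) = G 2 a) ∧
      ∀ y, IsAlgebraic K0 y → τ (ρ y) = ρ (τ y)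

end Pool.Agent.TQ
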