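import Pool.Agent.Helper10.TQ.Defs
import Pool.Agent.Helper10.PL.Lin

/-!
# Project TQ (two quadrics): the special values of the other variable relations
-/

universe u v

namespace Pool.Agent.TQ

open MvPolynomial Pool.Agent.BT

/-- the index of the variable `X (2 + s)` -/
def uix {N t : ℕ} (ht : t ≤ N) (s : Fin t) : Fin (N + 2) := ⟨2 + s, by omega⟩

/-- the special values of the other variable relations: `X (2 + s) ^ (ds s)` and, for `s₀`,
`u (u - 2) - x ^ 2` -/
noncomputable def spQ (R : Type u) [CommRing R] {N t : ℕ} (ht : t ≤ N) (ds : Fin t → ℕ)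
    (s₀ s : Fin t) : MvPolynomial (Fin (N + 2)) R :=
  if s = s₀ then X (uix ht s₀) * (X (uix ht s₀) - 2) - X 0 ^ 2 else X (uix ht s) ^ ds s

/-- the coefficients of the special values -/
noncomputable def g0Q {N t : ℕ} (ht : t ≤ N) (ds : Fin t → ℕ) (s₀ s : Fin t)
    (q : MonV (N + 2) (ds s)) : ℤ :=
  coeff q.1 (spQ ℤ ht ds s₀ s)

end Pool.Agent.TQ
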