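import Pool.Agent.Helper13.BT.K1
import Pool.Agent.Helper10.TQ.Defs

/-!
# Project TQ (two quadrics): the functions `(G_i / G_j) ^ (1 / 2)` are unramified
-/

universe u v

namespace Pool.Agent.TQ

open MvPolynomial Pool.Agent.BT Pool.Agent.Helper91.Sect

section val2

variable {R : Type u} {Ω : Type v} [Field R] [Field Ω] [Algebra R Ω]
  {V : ValuationSubring Ω} (hV : ∀ c : R, algebraMap R Ω c ∈ V) {N : ℕ} {x : Fin (N + 2) → Ω}
  {b₀ : Ω} (h1 : 1 ≤ V.valuation b₀) (hx : ∀ v, V.valuation (x v) ≤ V.valuation b₀)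

include hV h1 hx in
/-- the value of `G` is `n` times the value of `b₀` up to the square of the value of a function -/
theorem exists_val1 {n d nW M a b : ℕ} (hb : b₀ = 1 ∨ ∃ v, b₀ = x v) (hnM : n ≤ M) {U : Type}
    [Fintype U] {e : U → ℕ} {f : MonV (N + 2) d → R} {rel : ∀ u, MonV (N + 2) (e u) → R}
    (hf : aeval x (pol f) = 0) (hrel : ∀ u, aeval x (pol (rel u)) = 0)
    {G G' : MonV (N + 2) n → R} {W : MonV (N + 2) nW → R}
    {H : MonV (N + 2) a → R} {H' : U → MonV (N + 2) b → R} {T : R} (hT : T ≠ 0)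
    (hprod : pol G * pol G' = C T * pol W ^ 2 + comb f rel H H')
    (hcop : Cop G G' f rel M)
    (hG0 : aeval x (pol G) ≠ 0) (hG0' : aeval x (pol G') ≠ 0) :
    ∃ b : Ω, (∀ σ : Ω →+* Ω, (∀ c : R, σ (algebraMap R Ω c) = algebraMap R Ω c) →
        (∀ v, σ (x v) = x v) → σ b = b) ∧ b ≠ 0 ∧
      V.valuation (aeval x (pol G)) = V.valuation b ^ 2 * V.valuation b₀ ^ n := by
  classical
  have hb0 : b₀ ≠ 0 := (Valuation.ne_zero_iff _).1 (lt_of_lt_of_le zero_lt_one h1).ne'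
  have hp1 := congrArg (aeval x) hprod
  rw [map_mul, map_add, map_mul, aeval_comb hf hrel, add_zero, map_pow, aeval_C] at hp1
  set w := aeval x (pol W) with hw
  have hTv : V.valuation (algebraMap R Ω T) = 1 := by
    refine le_antisymm ((V.valuation_le_one_iff _).2 (hV _)) ?_
    have h2 := (V.valuation_le_one_iff _).2 (hV T⁻¹)
    rw [map_inv₀, map_inv₀] at h2
    have h3 : V.valuation (algebraMap R Ω T) ≠ 0 :=
      (Valuation.ne_zero_iff _).2 (by rwa [Ne, map_eq_zero])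
    exact (inv_le_one₀ (zero_lt_iff.2 h3)).1 h2
  have hp2 : V.valuation (aeval x (pol G)) * V.valuation (aeval x (pol G')) =
      V.valuation w ^ 2 := by
    rw [← map_mul, hp1, map_mul, map_pow, hTv, one_mul]
  have hw0 : w ≠ 0 := by
    intro h0
    rw [h0, zero_pow two_ne_zero, mul_zero] at hp1
    exact mul_ne_zero hG0 hG0' hp1
  have hfix : ∀ σ : Ω →+* Ω, (∀ c : R, σ (algebraMap R Ω c) = algebraMap R Ω c) →
      (∀ v, σ (x v) = x v) → σ b₀ = b₀ ∧ σ w = w := by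
    intro σ hσ hσx
    constructor
    · rcases hb with rfl | ⟨v, rfl⟩
      · exact map_one σ
      · exact hσx v
    · rw [hw, aeval_pol, map_sum]
      refine Finset.sum_congr rfl fun q _ => ?_
      rw [map_mul, hσ, Finsupp.prod, map_prod]
      congr 1
      refine Finset.prod_congr rfl fun v _ => ?_
      rw [map_pow, hσx]
  rcases val_eq_or hV h1 hx hb hnM hcop hf hrel with h | h
  · exact ⟨1, fun σ _ _ => map_one σ, one_ne_zero, by rw [h, map_one, one_pow, one_mul]⟩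
  · refine ⟨w / b₀ ^ n, fun σ hσ hσx => ?_, div_ne_zero hw0 (pow_ne_zero _ hb0), ?_⟩
    · rw [map_div₀, map_pow, (hfix σ hσ hσx).1, (hfix σ hσ hσx).2]
    · rw [h] at hp2
      have h2 : V.valuation b₀ ^ n ≠ 0 := pow_ne_zero _ ((Valuation.ne_zero_iff _).2 hb0)
      rw [map_div₀, map_pow, div_pow, ← hp2]
      field_simp

include hV in
/-- The value of `G_i / G_j` is the square of the value of a function. -/
theorem exists_valQ {n d nW nW₂ M a b a₂ b₂ : ℕ} (hnM : n ≤ M) {U : Type} [Fintype U]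
    {e : U → ℕ} {f : MonV (N + 2) d → R} {rel : ∀ u, MonV (N + 2) (e u) → R}
    (hf : aeval x (pol f) = 0) (hrel : ∀ u, aeval x (pol (rel u)) = 0)
    {G : Fin 4 → MonV (N + 2) n → R} {W : MonV (N + 2) nW → R} {W₂ : MonV (N + 2) nW₂ → R}
    {H : MonV (N + 2) a → R} {H' : U → MonV (N + 2) b → R}
    {H₂ : MonV (N + 2) a₂ → R} {H₂' : U → MonV (N + 2) b₂ → R} {T : R} (hT : T ≠ 0)
    (hprod : pol (G 0) * pol (G 1) = C T * pol W ^ 2 + comb f rel H H')
    (hprod₂ : pol (G 2) * pol (G 3) = pol W₂ ^ 2 + comb f rel H₂ H₂')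
    (hcop : Cop (G 0) (G 1) f rel M) (hcop₂ : Cop (G 2) (G 3) f rel M)
    (hG0 : ∀ i, aeval x (pol (G i)) ≠ 0) (i j : Fin 4) :
    ∃ b : Ω, (∀ σ : Ω →+* Ω, (∀ c : R, σ (algebraMap R Ω c) = algebraMap R Ω c) →
        (∀ v, σ (x v) = x v) → σ b = b) ∧
      V.valuation (aeval x (pol (G i))) = V.valuation b ^ 2 * V.valuation (aeval x (pol (G j))) := by
  classical
  obtain ⟨b₀, hb, h1, hx⟩ := exists_b0 V x
  have hsym : ∀ {A B : MonV (N + 2) n → R}, Cop A B f rel M → Cop B A f rel M := by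
    intro A B h q
    obtain ⟨P, Q, H, H', h⟩ := h q
    exact ⟨Q, P, H, H', by rw [← h]; ring⟩
  have hprod₂' : pol (G 2) * pol (G 3) = C (1 : R) * pol W₂ ^ 2 + comb f rel H₂ H₂' := by
    rw [map_one, one_mul, hprod₂]
  have key : ∀ i : Fin 4, ∃ b : Ω, (∀ σ : Ω →+* Ω, (∀ c : R, σ (algebraMap R Ω c) =
      algebraMap R Ω c) → (∀ v, σ (x v) = x v) → σ b = b) ∧ b ≠ 0 ∧
      V.valuation (aeval x (pol (G i))) = V.valuation b ^ 2 * V.valuation b₀ ^ n := by
    intro i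
    fin_cases i
    · exact exists_val1 hV h1 hx hb hnM hf hrel hT hprod hcop (hG0 0) (hG0 1)
    · exact exists_val1 hV h1 hx hb hnM hf hrel hT (by rw [mul_comm]; exact hprod) (hsym hcop)
        (hG0 1) (hG0 0)
    · exact exists_val1 hV h1 hx hb hnM hf hrel one_ne_zero hprod₂' hcop₂ (hG0 2) (hG0 3)
    · exact exists_val1 hV h1 hx hb hnM hf hrel one_ne_zero (by rw [mul_comm]; exact hprod₂')
        (hsym hcop₂) (hG0 3) (hG0 2)
  obtain ⟨bi, hi1, -, hi3⟩ := key i
  obtain ⟨bj, hj1, hj2, hj3⟩ := key j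
  refine ⟨bi / bj, fun σ hσ hσx => ?_, ?_⟩
  · rw [map_div₀, hi1 σ hσ hσx, hj1 σ hσ hσx]
  · have h2 : V.valuation bj ≠ 0 := (Valuation.ne_zero_iff _).2 hj2
    rw [hi3, hj3, map_div₀]
    field_simp

end val2

section kur

variable {k K : Type u} [Field k] [Field K] [Algebra k K]

/-- **The functions `(G_i / G_j) ^ (1 / 2)` are unramified.** -/
theorem root_mem_KurQ {N n d nW nW₂ M a b a₂ b₂ : ℕ} {x : Fin (N + 2) → K}
    (hnM : n ≤ M) {U : Type} [Fintype U] {e : U → ℕ} {f : MonV (N + 2) d → kbar k K}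
    {rel : ∀ u, MonV (N + 2) (e u) → kbar k K} (hf : evP x f = 0) (hrel : ∀ u, evP x (rel u) = 0)
    {G : Fin 4 → MonV (N + 2) n → kbar k K} {W : MonV (N + 2) nW → kbar k K}
    {W₂ : MonV (N + 2) nW₂ → kbar k K}
    {H : MonV (N + 2) a → kbar k K} {H' : U → MonV (N + 2) b → kbar k K}
    {H₂ : MonV (N + 2) a₂ → kbar k K} {H₂' : U → MonV (N + 2) b₂ → kbar k K} {T : kbar k K}
    (hT : T ≠ 0) (hprod : pol (G 0) * pol (G 1) = C T * pol W ^ 2 + comb f rel H H')
    (hprod₂ : pol (G 2) * pol (G 3) = pol W₂ ^ 2 + comb f rel H₂ H₂')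
    (hcop : Cop (G 0) (G 1) f rel M) (hcop₂ : Cop (G 2) (G 3) f rel M)
    (hG0 : ∀ i, evP x (G i) ≠ 0) {i j : Fin 4} {w : AlgebraicClosure K}
    (hw : w ^ 2 * evP x (G j) = evP x (G i)) : w ∈ Kur k K := by
  intro V hV σ hσ
  have hV' : ∀ c : kbar k K, algebraMap (kbar k K) (AlgebraicClosure K) c ∈ V := fun c =>
    const_mem hV (mem_algebraicClosure_iff.1 c.2)
  obtain ⟨b, hb, hval⟩ := exists_valQ hV' hnM hf hrel hT hprod hprod₂ hcop hcop₂ hG0 i j
  have hσc : ∀ c : kbar k K, σ (algebraMap (kbar k K) (AlgebraicClosure K) c) =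
      algebraMap (kbar k K) (AlgebraicClosure K) c := fun c =>
    inertia_const hV hσ (mem_algebraicClosure_iff.1 c.2)
  have hσG : ∀ l, σ (evP x (G l)) = evP x (G l) := by
    intro l
    unfold evP
    rw [aeval_pol, map_sum]
    refine Finset.sum_congr rfl fun q _ => ?_
    rw [map_mul, hσc, Finsupp.prod, map_prod]
    congr 1
    refine Finset.prod_congr rfl fun v _ => ?_
    rw [map_pow, σ.commutes]
  refine unit_crit hV hσ (b := b) (N := 2) ?_ ?_ two_pos ?_
  · exact hb (σ : AlgebraicClosure K →+* AlgebraicClosure K) hσc (fun v => σ.commutes (x v))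
  · change V.valuation (evP x (G i)) = _ * V.valuation (evP x (G j)) at hval
    rw [← hw, map_mul, map_pow] at hval
    have h1 : V.valuation (evP x (G j)) ≠ 0 := (Valuation.ne_zero_iff _).2 (hG0 j)
    have h2 := mul_right_cancel₀ h1 hval
    exact (pow_left_inj₀ zero_le zero_le two_ne_zero).1 h2
  · have h1 : w ^ 2 = evP x (G i) / evP x (G j) := by
      rw [← hw, mul_div_cancel_right₀ _ (hG0 j)]
    rw [h1, map_div₀, hσG, hσG]

end kur

end Pool.Agent.TQ
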