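import Pool.Agent.Helper13.BT.LevS
import Pool.Agent.Helper10.TQ.K1
import Pool.Agent.Helper10.TQ.A6

/-!
# Project TQ (two quadrics): the constants attached to a curve with a section
-/

universe u v

set_option linter.unusedSectionVars false

namespace Pool.Agent.TQ

open Polynomial Pool.Agent.BT Pool.Agent.Helper91.Sect Pool.Agent.LT Pool.Agent.GC
  Pool.Agent.SC
open Pool.Agent.PL (mu)
open Pool.Agent.Helper37.UL (Inert)

/-- **The constants attached to a Galois section over an extension of odd degree.** -/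
theorem hasLevQ_of_hasSecV {k₁ k : Type u} [Field k₁] [CharZero k₁] [Field k] [Algebra k₁ k]
    (hF₁ : ∃ S : Finset k₁, Subfield.closure (S : Set k₁) = ⊤)
    (t : k) (hfin : FiniteDimensional (IntermediateField.adjoin k₁ {t}) k)
    {N d : ℕ} {U : Type} [Fintype U] {e : U → ℕ}
    {f : MonV (N + 2) d → k} {rel : ∀ u, MonV (N + 2) (e u) → k} (hs : HasSecV 2 f rel)
    (C : Type u) [Field C] [Algebra k C] [IsAlgClosure k C] : HasLevQ k₁ C f rel := by
  classical
  intro n M hnM G nW nW₂ W W₂ a b a₂ b₂ H H' H₂ H₂' T hT hprod hprod₂ hcop hcop₂ M₂ M₂' M₃ D D'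
    D'' c hc0 hnrm
  obtain ⟨k', _, _, hk', hdeg, K, _, _, x₀, hx₀, hf₀, hrel₀, ⟨s₀⟩⟩ := hs
  have hk0 : CharZero k := charZero_of_injective_algebraMap (algebraMap k₁ k).injective
  have hk0' : CharZero k' := charZero_of_injective_algebraMap (algebraMap k k').injective
  -- reduction to `K = k'(x)`
  let K' : IntermediateField k' K := IntermediateField.adjoin k' (Set.range x₀)
  let x : Fin (N + 2) → K' := fun v => ⟨x₀ v, IntermediateField.subset_adjoin k' _ ⟨v, rfl⟩⟩
  obtain ⟨s⟩ : Nonempty (GaloisSection k' K') := Pool.Agent.TW.push (K₁ := K') s₀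
  have hx : Transcendental k' (x 0) := by
    intro h
    exact hx₀ (IsAlgebraic.algebraMap (A := K) h)
  have hval : ∀ {n₀ : ℕ} (g : MonV (N + 2) n₀ → k'), MvPolynomial.aeval x₀ (pol g) = 0 →
      MvPolynomial.aeval x (pol g) = 0 := by
    intro n₀ g h0
    apply Subtype.ext
    have h1 : ((MvPolynomial.aeval x (pol g) : K') : K) = MvPolynomial.aeval x₀ (pol g) := by
      rw [aeval_pol, aeval_pol]
      change K'.val _ = _
      rw [map_sum]
      refine Finset.sum_congr rfl fun q _ => ?_
      rw [map_mul, Finsupp.prod, Finsupp.prod, map_prod]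
      rfl
    rw [h1, h0]
    rfl
  have hf := hval _ hf₀
  have hrel : ∀ u, MvPolynomial.aeval x (pol fun q => algebraMap k k' (rel u q)) = 0 := fun u =>
    hval _ (hrel₀ u)
  have hgen : IntermediateField.adjoin k' (Set.range x) = ⊤ := by
    apply IntermediateField.map_injective K'.val
    rw [IntermediateField.adjoin_map, ← Set.range_comp, ← AlgHom.fieldRange_eq_map,
      IntermediateField.fieldRange_val]
    rfl
  let i0 : Algebra k₁ k' := ((algebraMap k k').comp (algebraMap k₁ k)).toAlgebra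
  have i0' : IsScalarTower k₁ k k' := IsScalarTower.of_algebraMap_eq fun _ => rfl
  let i1 : Algebra k₁ K' := ((algebraMap k' K').comp (algebraMap k₁ k')).toAlgebra
  have i2 : IsScalarTower k₁ k' K' := IsScalarTower.of_algebraMap_eq fun _ => rfl
  let i3 : Algebra k (kbar k' K') :=
    ((algebraMap k' (kbar k' K')).comp (algebraMap k k')).toAlgebra
  have i4 : IsScalarTower k k' (kbar k' K') := IsScalarTower.of_algebraMap_eq fun _ => rfl
  have i5 : Algebra.IsAlgebraic k (kbar k' K') := Algebra.IsAlgebraic.trans k k' (kbar k' K')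
  have hC0 : CharZero C := charZero_of_injective_algebraMap (algebraMap k C).injective
  -- the transport
  have hcom : ∀ (φ : C ≃ₐ[k] kbar k' K') (y : k), φ (algebraMap k C y) =
      algebraMap k' (kbar k' K') (algebraMap k k' y) := fun φ y => φ.commutes y
  have efφ : ∀ φ : C ≃ₐ[k] kbar k' K', (fun q => (φ : C →+* kbar k' K') (algebraMap k C (f q))) =
      fun q => algebraMap k' (kbar k' K') (algebraMap k k' (f q)) := fun φ =>
    funext fun q => hcom φ (f q)
  have erelφ : ∀ φ : C ≃ₐ[k] kbar k' K',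
      (fun u q => (φ : C →+* kbar k' K') (algebraMap k C (rel u q))) =
      fun u q => algebraMap k' (kbar k' K') (algebraMap k k' (rel u q)) := fun φ =>
    funext fun u => funext fun q => hcom φ (rel u q)
  have hf' : evP x (fun q => algebraMap k' (kbar k' K') (algebraMap k k' (f q))) = 0 :=
    evP_const hf
  have hrel' : ∀ u, evP x (fun q => algebraMap k' (kbar k' K') (algebraMap k k' (rel u q))) = 0 :=
    fun u => evP_const (hrel u)
  have hcombφ : ∀ (φ : C ≃ₐ[k] kbar k' K') {a b : ℕ} (H : MonV (N + 2) a → C)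
      (H' : U → MonV (N + 2) b → C), MvPolynomial.map (φ : C →+* kbar k' K')
        (comb (fun q => algebraMap k C (f q)) (fun u q => algebraMap k C (rel u q)) H H') =
      comb (fun q => algebraMap k' (kbar k' K') (algebraMap k k' (f q)))
        (fun u q => algebraMap k' (kbar k' K') (algebraMap k k' (rel u q)))
        (fun q => φ (H q)) (fun u q => φ (H' u q)) := by
    intro φ a b H H'
    rw [map_comb, efφ, erelφ]
    rfl
  have hnrmφ : ∀ (φ : C ≃ₐ[k] kbar k' K') i, pol (fun q => φ (D i q)) * pol (fun q => φ (G i q)) +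
      comb (fun q => algebraMap k' (kbar k' K') (algebraMap k k' (f q)))
        (fun u q => algebraMap k' (kbar k' K') (algebraMap k k' (rel u q)))
        (fun q => φ (D' i q)) (fun u q => φ (D'' i u q)) = polX fun l => φ (c i l) := by
    intro φ i
    have h1 := congrArg (MvPolynomial.map (φ : C →+* kbar k' K')) (hnrm i)
    rw [map_add, map_mul, map_pol, map_pol, hcombφ, map_polX] at h1
    exact h1
  have hcφ : ∀ (φ : C ≃ₐ[k] kbar k' K') i, (fun l => φ (c i l)) ≠ 0 := by
    intro φ i h0
    apply hc0 i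
    funext l
    exact (map_eq_zero φ).1 (congrFun h0 l)
  have hG0 : ∀ (φ : C ≃ₐ[k] kbar k' K') i, evP x (fun q => φ (G i q)) ≠ 0 := by
    intro φ i h0
    have h1 := congrArg (MvPolynomial.aeval fun v => algebraMap K' (AlgebraicClosure K') (x v))
      (hnrmφ φ i)
    rw [map_add, map_mul, aeval_comb hf' hrel', add_zero] at h1
    change _ * evP x (fun q => φ (G i q)) = _ at h1
    rw [h0, mul_zero] at h1
    exact evP_polX_ne hx (hcφ φ i) h1.symm
  have hprodφ : ∀ φ : C ≃ₐ[k] kbar k' K', pol (fun q => φ (G 0 q)) * pol (fun q => φ (G 1 q)) =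
      MvPolynomial.C (algebraMap k' (kbar k' K') (algebraMap k k' T)) *
        pol (fun q => φ (W q)) ^ 2 +
      comb (fun q => algebraMap k' (kbar k' K') (algebraMap k k' (f q)))
        (fun u q => algebraMap k' (kbar k' K') (algebraMap k k' (rel u q)))
        (fun q => φ (H q)) (fun u q => φ (H' u q)) := by
    intro φ
    have h1 := congrArg (MvPolynomial.map (φ : C →+* kbar k' K')) hprod
    rw [map_mul, map_add, map_mul, map_pow, MvPolynomial.map_C, hcombφ, map_pol] at h1
    simp only [map_pol] at h1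
    have h2 : (φ : C →+* kbar k' K') (algebraMap k C T) =
      algebraMap k' (kbar k' K') (algebraMap k k' T) := hcom φ T
    rw [h2] at h1
    exact h1
  have hprodφ₂ : ∀ φ : C ≃ₐ[k] kbar k' K', pol (fun q => φ (G 2 q)) * pol (fun q => φ (G 3 q)) =
      pol (fun q => φ (W₂ q)) ^ 2 +
      comb (fun q => algebraMap k' (kbar k' K') (algebraMap k k' (f q)))
        (fun u q => algebraMap k' (kbar k' K') (algebraMap k k' (rel u q)))
        (fun q => φ (H₂ q)) (fun u q => φ (H₂' u q)) := by
    intro φ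
    have h1 := congrArg (MvPolynomial.map (φ : C →+* kbar k' K')) hprod₂
    rw [map_mul, map_add, map_pow, hcombφ, map_pol] at h1
    simp only [map_pol] at h1
    exact h1
  have hcopφ : ∀ (φ : C ≃ₐ[k] kbar k' K') {A B : MonV (N + 2) n → C},
      Cop A B (fun q => algebraMap k C (f q)) (fun u q => algebraMap k C (rel u q)) M →
      Cop (fun q => φ (A q)) (fun q => φ (B q))
        (fun q => algebraMap k' (kbar k' K') (algebraMap k k' (f q)))
        (fun u q => algebraMap k' (kbar k' K') (algebraMap k k' (rel u q))) M := by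
    intro φ A₀ B₀ hcop q
    obtain ⟨A, B, H, H', h⟩ := hcop q
    refine ⟨fun q => φ (A q), fun q => φ (B q), fun q => φ (H q), fun u q => φ (H' u q), ?_⟩
    have h1 := congrArg (MvPolynomial.map (φ : C →+* kbar k' K')) h
    rw [map_add, map_add, map_mul, map_mul, map_pol, map_pol, map_pol, map_pol, hcombφ,
      MvPolynomial.map_monomial, map_one] at h1
    exact h1
  have hTk : (algebraMap k' (kbar k' K') (algebraMap k k' T)) ≠ 0 :=
    (_root_.map_ne_zero _).2 ((_root_.map_ne_zero _).2 hT)
  -- the constants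
  obtain ⟨Z, hZ⟩ := exists_levG (k := k) Nat.prime_two hdeg s
    (fun q : MonV (N + 2) n => q.1.prod fun i e => x i ^ e) C
  have hgood : ∀ i j, Good (k := k) (k' := k') 2
      (fun q : MonV (N + 2) n => q.1.prod fun i e => x i ^ e) (G i) (G j) := by
    intro i j φ
    rw [evl_eq, evl_eq]
    refine ⟨hG0 φ i, hG0 φ j, fun w hw => ?_⟩
    exact root_mem_KurQ (G := fun i q => φ (G i q)) (i := i) (j := j) hnM hf' hrel' hTk (hprodφ φ)
      (hprodφ₂ φ) (hcopφ φ hcop) (hcopφ φ hcop₂) (hG0 φ) hw
  refine ⟨fun i j => Z (G i) (G j), ⟨fun i j _ => hZ.ne _ _ (hgood i j), fun i j _ =>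
    hZ.pow _ _ (hgood i j), ?_, fun i j l _ _ _ => hZ.coc _ _ _ (hgood i j) (hgood j l)
      (hgood i l), ?_⟩, ?_⟩
  · intro σ i j i' j' _ _ hi hj
    have h1 := hZ.equi _ _ (hgood i j) σ
    rw [funext hi, funext hj] at h1
    exact IntermediateField.subset_adjoin k _ (Or.inl h1)
  · intro α hα
    have h1 := hZ.prod (d := 2) (r := 1) (by norm_num)
      (v' := fun q : MonV (N + 2) nW => q.1.prod fun i e => x i ^ e)
      (G := ![G 0, G 1]) (W := W) (T := T) hT
      (fun φ i => by
        fin_cases i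
        · exact (hgood 0 0 φ).1
        · exact (hgood 1 1 φ).1)
      (fun φ => by
        have h1 := congrArg (MvPolynomial.aeval fun v => algebraMap K' (AlgebraicClosure K') (x v))
          (hprodφ φ)
        rw [map_mul, map_add, map_mul, aeval_comb hf' hrel', add_zero, map_pow,
          MvPolynomial.aeval_C] at h1
        rw [Fin.prod_univ_two]
        change evl _ (fun q => φ (G 0 q)) * evl _ (fun q => φ (G 1 q)) = _
        rw [evl_eq, evl_eq, evl_eq]
        exact h1)
      (fun i j _ => by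
        have h : ∀ i : Fin 2, ∃ i' : Fin 4, (![G 0, G 1] : Fin 2 → MonV (N + 2) n → C) i = G i' := by
          intro i
          fin_cases i
          · exact ⟨0, rfl⟩
          · exact ⟨1, rfl⟩
        obtain ⟨i', hi⟩ := h i
        obtain ⟨j', hj⟩ := h j
        rw [hi, hj]
        exact hgood i' j') α hα 0
    have h2 : (Finset.univ.erase (0 : Fin 2)) = {1} := by decide
    rw [h2, Finset.prod_singleton] at h1
    refine IntermediateField.adjoin.mono k _ _ ?_ h1
    rintro y (hy | hy | hy)
    · exact Or.inl hy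
    · obtain ⟨j, hj⟩ := Set.mem_iUnion.1 hy
      refine Or.inr (Or.inl (Set.mem_iUnion.2 ?_))
      fin_cases j
      · exact ⟨0, hj⟩
      · exact ⟨1, hj⟩
    · exact Or.inr (Or.inr hy)
  · intro M₁ M₂ m e₁ e₂ ρ S R V V' A B Hd Hd' hdisc hsub P hPtop hk₁P hgd i j hij hGi hGj hDi hDj
      hci hcj σ hσ hσi hσj
    have hpinv : ((2 : ℕ) : C)⁻¹ ∈ P := by
      have h1 := hk₁P (((2 : ℕ) : k₁)⁻¹)
      rwa [map_inv₀, map_inv₀, map_natCast, map_natCast] at h1
    refine hZ.inert P hpinv (G i) (G j) (hgood i j) ?_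
      (AlgEquiv.ofRingEquiv (f := σ) (fun a => hσ.fix _ ⟨a, rfl⟩)) hσ.dec hσ.res hσi hσj
    intro φ τ hτi hτj hτ ω hω w hwK hw
    rw [evl_eq, evl_eq] at hw
    set P' : ValuationSubring (kbar k' K') :=
      P.comap ((φ.symm : kbar k' K' ≃+* C) : kbar k' K' →+* C) with hP'
    have hmem : ∀ w : kbar k' K', w ∈ P' ↔ φ.symm w ∈ P := fun w => Iff.rfl
    have hmem' : ∀ y : C, φ y ∈ P' ↔ y ∈ P := fun y => by rw [hmem, φ.symm_apply_apply]
    have hmemk : ∀ y : k, algebraMap k' (kbar k' K') (algebraMap k k' y) ∈ P' ↔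
        algebraMap k C y ∈ P := fun y => by rw [← hcom φ, hmem']
    have hP'top : P' ≠ ⊤ := by
      intro h
      apply hPtop
      rw [eq_top_iff]
      intro y _
      rw [← hmem', h]
      trivial
    have hc'V : ∀ i, (∃ l, c i l ≠ 0 ∧ (c i l)⁻¹ ∈ P) → ∃ l, φ (c i l) ≠ 0 ∧ (φ (c i l))⁻¹ ∈ P' := by
      rintro i ⟨l, h4, h5⟩
      refine ⟨l, (_root_.map_ne_zero φ).2 h4, ?_⟩
      rw [← map_inv₀, hmem']
      exact h5
    have hgood' : GoodV P' (fun v j i => algebraMap k k' (S v j i)) (fun i => algebraMap k k' (R i))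
        (fun i => algebraMap k k' (V i)) (fun i => algebraMap k k' (V' i))
        (fun v j i => algebraMap k k' (B v j i)) := by
      refine ⟨fun v j i => (hmemk _).2 (hgd.s_mem v j i), fun i => (hmemk _).2 (hgd.R_mem i), ?_,
        fun i => (hmemk _).2 (hgd.V_mem i), fun i => (hmemk _).2 (hgd.V'_mem i),
        fun v j i => (hmemk _).2 (hgd.B_mem v j i)⟩
      rw [← map_inv₀, ← map_inv₀, hmemk, map_inv₀]
      exact hgd.R_lead
    have hroot : ∀ v, eval₂ (aeval (x 0) : k'[X] →ₐ[k'] K').toRingHom (x v)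
        (monYX fun j i => algebraMap k k' (S v j i)) = 0 := by
      intro v
      have h1 := congrArg (MvPolynomial.map (algebraMap k k')) (hsub v)
      rw [map_pow, map_subV, map_monYX, map_comb] at h1
      have h2 := congrArg (MvPolynomial.aeval x) h1
      rw [map_pow, aeval_comb hf hrel, aeval_subV] at h2
      exact eq_zero_of_pow_eq_zero h2
    exact root_inert (k₁ := k₁) hF₁ (algebraMap k k' t) (PL.fin_ext hfin) hx hgen hf hrel
      (hdisc.map (algebraMap k k')) hroot s two_ne_zero hP'top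
      (fun a => (hmemk _).2 (hk₁P a)) hgood' (hnrmφ φ i) (hnrmφ φ j)
      (fun q => (hmem' _).2 (hGi q)) (fun q => (hmem' _).2 (hDi q)) (hc'V i hci)
      (fun q => (hmem' _).2 (hGj q)) (fun q => (hmem' _).2 (hDj q)) (hc'V j hcj)
      hwK hw hτ hτi hτj hω

end Pool.Agent.TQ
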