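import Pool.Agent.Helper10.TQ.Swap2
import Pool.Agent.Helper37.TQ.NoeQ
import Pool.Agent.Helper10.BT.Pol

/-!
# Project TQ (two quadrics): NOE for the second block
-/

universe u v

namespace Pool.Agent.TQ

open MvPolynomial Pool.Agent.BT Pool.Agent.BE

section f0

variable {A : Type u} [CommRing A] (N : ℕ)

theorem inc_f0_two (γ : Fin 2 → A) (T : A) : inc N (PC.f0 γ T) =
    (X 1 - C (γ 0)) * (X 1 - C (γ 1)) - C T * X 0 ^ 2 := by
  unfold PC.f0
  rw [Fin.prod_univ_two]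
  simp only [map_sub, map_mul, map_pow, inc_C, inc_X0, inc_X1]

theorem inc_f0_d {d : ℕ} (hd : d = 2) :
    inc N (PC.f0 (fun j : Fin d => (2 * (j : ℕ) : A)) 1) = X 1 * (X 1 - 2) - X 0 ^ 2 := by
  subst hd
  rw [inc_f0_two]
  have h2 : (C (2 : A) : MvPolynomial (Fin (N + 2)) A) = 2 := map_ofNat C 2
  simp [h2]

end f0

/-- **NOE for the second block.** -/
theorem noe2Q {K : Type u} [Field K] {N t : ℕ} (ht : t ≤ N) {ds : Fin t → ℕ} {s₀ : Fin t}
    (hs₀ : ds s₀ = 2) {U : Type} [Fintype U] {e : U → ℕ} {h₀ : ∀ u, MonV (N + 2) (e u) → K} {c : ℕ}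
    (hc : 1 ≤ c) (hcert : CertV ht h₀ c) {γ : Fin 2 → K} {T : K} {f : MonV (N + 2) 2 → K}
    (hf : pol f = inc N (PC.f0 γ T))
    {rel : ∀ u : Fin t ⊕ U, MonV (N + 2) (Sum.elim ds e u) → K}
    (hrel : ∀ u q, rel u q = relS (fun s q => (g0Q ht ds s₀ s q : K)) h₀ u q) :
    ∃ c', Noe (fun u => ren (piU ht s₀) (swR s₀ hs₀ f rel u)) c' := by
  classical
  set π := piU ht s₀ with hπ
  have key : ∀ s, ∃ L B B' : MvPolynomial (Fin (N + 2)) K, DL L 1 (ds s) ∧ DL B 1 (ds s) ∧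
      DL B' 1 (ds s) ∧ X (uix ht s) ^ ds s =
        pol (ren π (swS s₀ hs₀ f (fun s q => (g0Q ht ds s₀ s q : K)) s)) +
          (L + X 0 * B + X 1 * B') := by
    intro s
    by_cases hs : s = s₀
    · subst hs
      rw [pol_ren, pol_swS_same, hf, inc_f0_two, hs₀]
      refine ⟨C (γ 0 + γ 1) * X (uix ht s) - C (γ 0 * γ 1), C T * X 0, 0, ?_, ?_, DL.zero _ _, ?_⟩
      · rw [sub_eq_add_neg]
        refine DL.add ?_ ?_
        · exact ((DL.C _).mul (DL.X _)).mono (by omega)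
        · exact (DL.C _).neg.mono (by omega)
      · exact ((DL.C _).mul (DL.X _)).mono (by omega)
      · rw [map_sub, map_mul, map_sub, map_sub, map_mul, map_pow, rename_C, rename_C, rename_C,
          rename_X, rename_X, hπ, piU_one, piU_zero, map_add, map_mul]
        ring
    · refine ⟨0, 0, 0, DL.zero _ _, DL.zero _ _, DL.zero _ _, ?_⟩
      rw [swS_ne hs, pol_ren, pol_g0Q hs₀, spQ, if_neg hs, map_pow, rename_X, hπ, piU_ne hs]
      ring
  have h1 : (fun u => ren π (swR s₀ hs₀ f rel u)) =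
      relS (fun s => ren π (swS s₀ hs₀ f (fun s q => (g0Q ht ds s₀ s q : K)) s))
        (fun u => ren π (h₀ u)) := by
    have h2 : ∀ s, swS s₀ hs₀ f (fun s => rel (Sum.inl s)) s =
        swS s₀ hs₀ f (fun s q => (g0Q ht ds s₀ s q : K)) s := by
      intro s
      congr 1
      funext s q
      exact hrel (Sum.inl s) q
    have h3 : ∀ u, rel (Sum.inr u) = h₀ u := fun u => funext (hrel (Sum.inr u))
    funext u
    rcases u with s | u
    · exact congrArg (ren π) (h2 s)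
    · exact congrArg (ren π) (h3 u)
  rw [h1]
  have hu : ∀ s : Fin t, (Fin.natAdd 2 (Fin.castLE ht s)).cast (by omega) = uix ht s :=
    fun s => Fin.ext rfl
  refine noe_of_cert_gen ht hc (hcert.ren s₀) fun s => ?_
  obtain ⟨L, B, B', h2, h3, h4, h5⟩ := key s
  refine ⟨L, B, B', h2, h3, h4, ?_⟩
  rw [hu]
  exact h5

end Pool.Agent.TQ
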