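import Pool.Agent.Helper10.TQ.DefsB

/-!
# Stubs of project TQ (two quadrics): NOE and the second block (helper10)
-/

universe u v

namespace Pool.Agent.TQ

open MvPolynomial Pool.Agent.BT

/-- NOE for the first block. -/
theorem noe1Q_stub {K : Type u} [Field K] {N t : ℕ} (ht : t ≤ N) {ds : Fin t → ℕ} {s₀ : Fin t}
    (hs₀ : ds s₀ = 2) {U : Type} [Fintype U] {e : U → ℕ} {h : ∀ u, MonV (N + 2) (e u) → K} {c : ℕ}
    (hc : 1 ≤ c) (hcert : CertV ht h c) :
    ∃ c', Noe (relS (fun s q => (g0Q ht ds s₀ s q : K)) h) c' := by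
  sorry

/-- monotonicity of `Cop` -/
theorem Cop.mono_stub {K : Type u} [Field K] {N n d : ℕ} {U : Type} [Fintype U] {e : U → ℕ}
    {G G' : MonV (N + 2) n → K} {f : MonV (N + 2) d → K} {rel : ∀ u, MonV (N + 2) (e u) → K}
    {M M' : ℕ} (hnM : n ≤ M) (hM : M ≤ M') (h : Cop G G' f rel M) : Cop G G' f rel M' := by
  sorry

/-- monotonicity of `FinX` -/
theorem FinX.mono_stub {K : Type u} [Field K] {N d : ℕ} {U : Type} [Fintype U] {e : U → ℕ}
    {f : MonV (N + 2) d → K} {rel : ∀ u, MonV (N + 2) (e u) → K}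
    {M M' : ℕ} (h1M : 1 ≤ M) (hM : M ≤ M') (h : FinX f rel M) : FinX f rel M' := by
  sorry

/-- padding of polynomials in `x` -/
theorem exists_padX_stub {R : Type u} [CommRing R] (N : ℕ) {M M' : ℕ} (hM : M ≤ M')
    (c : Fin (M + 1) → R) :
    ∃ c' : Fin (M' + 1) → R, polX (N := N) c' = polX c ∧ (c ≠ 0 → c' ≠ 0) := by
  sorry

/-- **The second block**, in the coordinates of the first: SOL and CERT. -/
theorem exists_block2_stub {A : Type u} [Field A] [CharZero A] {N t : ℕ} (ht : t ≤ N)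
    {ds : Fin t → ℕ} {s₀ : Fin t} (hs₀ : ds s₀ = 2) {U : Type} [Fintype U] {e : U → ℕ} {T : A}
    {γ : Fin 2 → A} {h₀ : ∀ u, MonV (N + 2) (e u) → A} {c : ℕ} (hc : 1 ≤ c)
    (hcert : CertV ht h₀ c) (f : MonV (N + 2) 2 → PowerSeries A)
    (rel : ∀ u : Fin t ⊕ U, MonV (N + 2) (Sum.elim ds e u) → PowerSeries A)
    (hf : pol (fun q => PowerSeries.constantCoeff (f q)) = inc N (PC.f0 γ T))
    (hrel : ∀ u q, PowerSeries.constantCoeff (rel u q) =
      relS (fun s q => (g0Q ht ds s₀ s q : A)) h₀ u q) :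
    ∃ c' : ℕ, ∀ m, 2 + c' ≤ m →
      ∃ (G : Fin 2 → MonV (N + 2) (1 + 2 * m) → PowerSeries A)
      (W : MonV (N + 2) (1 * (1 + 2 * m)) → PowerSeries A)
      (H : MonV (N + 2) (2 * (1 + 2 * m)) → PowerSeries A)
      (H' : Fin t ⊕ U → MonV (N + 2) (2 * (1 + 2 * m)) → PowerSeries A),
      pol (G 0) * pol (G 1) = pol W ^ 2 + comb f rel H H' ∧
      -- invariance
      (∀ ρ : A ≃+* A, (∀ q, PowerSeries.map (ρ : A →+* A) (f q) = f q) →
        (∀ u q, PowerSeries.map (ρ : A →+* A) (rel u q) = rel u q) →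
        (∀ i q, PowerSeries.map (ρ : A →+* A) (G i q) = G i q) ∧
        (∀ q, PowerSeries.map (ρ : A →+* A) (W q) = W q) ∧
        (∀ q, PowerSeries.map (ρ : A →+* A) (H q) = H q) ∧
        (∀ u q, PowerSeries.map (ρ : A →+* A) (H' u q) = H' u q)) ∧
      -- algebraicity
      (∀ {L : Type u} [Field L] (φ : PowerSeries A →+* L), Function.Injective φ →
        ∀ K : Subfield L, φ (PowerSeries.C T) ∈ K →
        (∀ i, IsAlgebraic K (φ (PowerSeries.C (γ i)))) → (∀ q, φ (f q) ∈ K) →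
        (∀ u q, φ (rel u q) ∈ K) →
        (∀ u q, φ (PowerSeries.C (PowerSeries.constantCoeff (rel u q))) ∈ K) →
        (∀ i q, IsAlgebraic K (φ (G i q))) ∧ (∀ q, IsAlgebraic K (φ (W q))) ∧
        (∀ q, IsAlgebraic K (φ (H q))) ∧ (∀ u q, IsAlgebraic K (φ (H' u q)))) ∧
      -- the certificates
      ∀ {L K : Type u} [Field L] [Field K] (ψ : PowerSeries A →+* L), Function.Injective ψ →
        ∀ (ι : K →+* L) {fK : MonV (N + 2) 2 → K}
        {relK : ∀ u : Fin t ⊕ U, MonV (N + 2) (Sum.elim ds e u) → K}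
        {GK : Fin 2 → MonV (N + 2) (1 + 2 * m) → K},
        (∀ a, ι (fK a) = ψ (f a)) → (∀ u a, ι (relK u a) = ψ (rel u a)) →
        (∀ i a, ι (GK i a) = ψ (G i a)) → ∀ M₀ : ℕ,
        ∃ M : ℕ, M₀ ≤ M ∧ 1 + 2 * m ≤ M ∧ 1 ≤ M ∧ FinX fK relK M ∧
          Cop (GK 0) (GK 1) fK relK M ∧
          ∃ (D : Fin 2 → MonV (N + 2) M → K) (D' : Fin 2 → MonV (N + 2) M → K)
            (D'' : Fin 2 → Fin t ⊕ U → MonV (N + 2) M → K) (c : Fin 2 → Fin (M + 1) → K),
            ∀ i, c i ≠ 0 ∧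
              pol (D i) * pol (GK i) + comb fK relK (D' i) (D'' i) = polX (c i) := by
  sorry

end Pool.Agent.TQ
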