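import Pool.Agent.Helper10.TQ.Defs

/-!
# Stubs of project TQ (two quadrics): GEO1 (helper10), GEO (helper97)
-/

universe u v

namespace Pool.Agent.TQ

open MvPolynomial Pool.Agent.BT

/-- base change of certificates (helper10) -/
theorem CertV.map_stub {K : Type u} {L : Type v} [Field K] [Field L] (ι : K →+* L) {N t : ℕ}
    {ht : t ≤ N} {U : Type} [Fintype U] {e : U → ℕ} {h : ∀ u, MonV (N + 2) (e u) → K} {c : ℕ}
    (hcert : CertV ht h c) : CertV ht (fun u q => ι (h u q)) c := by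
  sorry

/-- **GEO1 for two quadrics** (helper10). -/
theorem geo1Q_stub {κ E : Type u} [Field κ] [IsAlgClosed κ] [CharZero κ] [Field E] [Algebra κ E]
    (φE : E →+* HahnSeries ℤ κ) (hφc : ∀ c : κ, φE (algebraMap κ E c) = HahnSeries.C c) {T : E}
    (hφT : φE T = HahnSeries.single 1 1) {N m t : ℕ} (ht : t ≤ N) {ds : Fin t → ℕ} {s₀ : Fin t}
    (hs₀ : ds s₀ = 2) {U : Type} [Fintype U] {e : U → ℕ}
    {w : Fin (m + 2) → E} (hw0 : w 0 = 1) (hw1 : w 1 = T)
    {h : ∀ u, MonV (N + 2) (e u) → E} {c : ℕ} (hc : 1 ≤ c) (hcert : CertV ht h c) :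
    Geo1Q κ E T N m ds w h := by
  sorry

/-- **GEO for two quadrics** (helper97).  `κ` is algebraically closed in `S`, `T` is transcendental over
`κ`, `q` is unramified and split at `T = 0`, the `x i` are algebraically independent over `E = κ(T, q)`;
`h` are the fixed relations. -/
theorem geoQ_stub {S : Type u} [Field S] [IsAlgClosed S] [CharZero S] {κ E K0 : Subfield S}
    (hκ : ∀ y : S, IsAlgebraic κ y → y ∈ κ) {T q : S} (hT : Transcendental κ T)
    (hq : TH.SplitAt κ T q) (hE : E = Subfield.closure ((κ : Set S) ∪ {T, q}))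
    {N t : ℕ} (ht : t ≤ N) {ds : Fin t → ℕ} {s₀ : Fin t} (hs₀ : ds s₀ = 2) {m : ℕ}
    {x : IxV (N + 2) 2 ds × Fin (m + 2) → S} (hx : AlgebraicIndependent E x)
    (hK0 : K0 = Subfield.closure ((E : Set S) ∪ Set.range x))
    {w : Fin (m + 2) → S} (hw : ∀ e, w e ∈ E) (hw0 : w 0 = 1) (hw1 : w 1 = T)
    {U : Type} [Fintype U] {e : U → ℕ} {h : ∀ u, MonV (N + 2) (e u) → E} {c : ℕ} (hc : 1 ≤ c)
    (hcert : CertV ht h c) :
    GeoQ κ K0 T x w (fun u q => (h u q : S)) := by
  sorry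

end Pool.Agent.TQ
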