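import Pool.Agent.Helper10.TQ.DefsB
import Pool.Agent.Helper37.BT.Basic

/-!
# Project TQ (two quadrics): renaming of the variables
-/

universe u v

namespace Pool.Agent.TQ

open MvPolynomial Pool.Agent.BT

section ren

variable {R : Type u} [CommRing R] {n D : ℕ}

lemma degree_mapDomain_perm (π : Equiv.Perm (Fin n)) (s : Fin n →₀ ℕ) :
    (s.mapDomain π).degree = s.degree := by
  rw [Finsupp.degree_eq_sum, Finsupp.degree_eq_sum, ← Equiv.sum_comp π]
  exact Finset.sum_congr rfl fun i _ => Finsupp.mapDomain_apply π.injective _ _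

/-- renaming of the variables on coefficient vectors -/
noncomputable def ren {X : Type v} (π : Equiv.Perm (Fin n)) (g : MonV n D → X) : MonV n D → X :=
  fun q => g ⟨q.1.mapDomain π.symm, (degree_mapDomain_perm π.symm q.1).le.trans q.2⟩

theorem pol_ren (π : Equiv.Perm (Fin n)) (g : MonV n D → R) : pol (ren π g) = rename π (pol g) := by
  classical
  ext s
  by_cases hs : s.degree ≤ D
  · rw [coeff_pol (ren π g) ⟨s, hs⟩]
    have h1 : s = (s.mapDomain π.symm).mapDomain π := by
      rw [← Finsupp.mapDomain_comp]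
      simp
    conv_rhs => rw [h1]
    rw [coeff_rename_mapDomain _ π.injective]
    exact (coeff_pol g ⟨s.mapDomain π.symm, (degree_mapDomain_perm π.symm s).le.trans hs⟩).symm
  · rw [coeff_pol_of _ (not_le.1 hs)]
    have h1 : s = (s.mapDomain π.symm).mapDomain π := by
      rw [← Finsupp.mapDomain_comp]
      simp
    conv_rhs => rw [h1]
    rw [coeff_rename_mapDomain _ π.injective, coeff_pol_of]
    rw [degree_mapDomain_perm]
    exact not_le.1 hs

theorem ren_symm_ren {X : Type v} (π : Equiv.Perm (Fin n)) (g : MonV n D → X) :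
    ren π.symm (ren π g) = g := by
  funext q
  unfold ren
  congr 1
  apply Subtype.ext
  change (q.1.mapDomain π.symm.symm).mapDomain π.symm = q.1
  rw [← Finsupp.mapDomain_comp]
  simp

theorem ren_ren_symm {X : Type v} (π : Equiv.Perm (Fin n)) (g : MonV n D → X) :
    ren π (ren π.symm g) = g := by
  have h := ren_symm_ren π.symm g
  rwa [Equiv.symm_symm] at h

theorem ren_injective {X : Type v} (π : Equiv.Perm (Fin n)) :
    Function.Injective (ren π : (MonV n D → X) → MonV n D → X) := fun g g' h => by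
  rw [← ren_symm_ren π g, h, ren_symm_ren]

theorem comb_ren (π : Equiv.Perm (Fin n)) {d a b : ℕ} {U : Type} [Fintype U] {e : U → ℕ}
    (f : MonV n d → R) (rel : ∀ u, MonV n (e u) → R) (H : MonV n a → R) (H' : U → MonV n b → R) :
    comb (ren π f) (fun u => ren π (rel u)) (ren π H) (fun u => ren π (H' u)) =
      rename π (comb f rel H H') := by
  unfold comb
  simp only [pol_ren, map_add, map_mul, map_sum]

end ren

section cop

variable {K : Type u} [Field K] {N : ℕ} {π : Equiv.Perm (Fin (N + 2))}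

theorem rename_monomial_symm (s : Fin (N + 2) →₀ ℕ) :
    rename π (monomial (s.mapDomain π.symm) (1 : K)) = monomial s 1 := by
  rw [rename_monomial, ← Finsupp.mapDomain_comp]
  simp

theorem rename_eq_iff {P Q : MvPolynomial (Fin (N + 2)) K} :
    rename π P = rename π Q ↔ P = Q :=
  (rename_injective _ π.injective).eq_iff

theorem Cop.of_ren {n d : ℕ} {U : Type} [Fintype U] {e : U → ℕ} {G G' : MonV (N + 2) n → K}
    {f : MonV (N + 2) d → K} {rel : ∀ u, MonV (N + 2) (e u) → K} {M : ℕ}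
    (h : Cop (ren π G) (ren π G') (ren π f) (fun u => ren π (rel u)) M) : Cop G G' f rel M := by
  intro q
  obtain ⟨A, B, H, H', h1⟩ := h ⟨q.1.mapDomain π, (degree_mapDomain_perm π q.1).le.trans q.2⟩
  refine ⟨ren π.symm A, ren π.symm B, ren π.symm H, fun u => ren π.symm (H' u), ?_⟩
  apply rename_injective _ π.injective
  rw [map_add, map_add, map_mul, map_mul, ← comb_ren, ← pol_ren, ← pol_ren, ← pol_ren, ← pol_ren]
  simp only [ren_ren_symm]
  rw [h1, rename_monomial]

theorem FinX.of_ren (hπ : π 0 = 0) {d : ℕ} {U : Type} [Fintype U] {e : U → ℕ}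
    {f : MonV (N + 2) d → K} {rel : ∀ u, MonV (N + 2) (e u) → K} {M : ℕ}
    (h : FinX (ren π f) (fun u => ren π (rel u)) M) : FinX f rel M := by
  intro q
  obtain ⟨A, B, H, H', h1⟩ := h ⟨q.1.mapDomain π, (degree_mapDomain_perm π q.1).le.trans q.2⟩
  refine ⟨ren π.symm A, ren π.symm B, ren π.symm H, fun u => ren π.symm (H' u), ?_⟩
  apply rename_injective _ π.injective
  rw [map_add, map_add, map_mul, ← comb_ren, ← pol_ren, ← pol_ren, rename_X, hπ]
  simp only [ren_ren_symm]
  rw [h1, rename_monomial]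

end cop

theorem rename_polX {R : Type u} [CommRing R] {N : ℕ} {π : Equiv.Perm (Fin (N + 2))}
    (hπ : π 0 = 0) {M : ℕ} (c : Fin (M + 1) → R) :
    rename π (polX (N := N) c) = polX c := by
  unfold polX
  rw [map_sum]
  refine Finset.sum_congr rfl fun i _ => ?_
  rw [map_mul, map_pow, rename_C, rename_X, hπ]

section relswap

variable {R : Type u} [CommRing R] {N t : ℕ} {ds : Fin t → ℕ} {U : Type} [Fintype U] {e : U → ℕ}

/-- change of the bound of the degree -/
def castM {X : Type v} {n a b : ℕ} (h : a = b) (g : MonV n a → X) : MonV n b → X :=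
  fun q => g ⟨q.1, by rw [h]; exact q.2⟩

theorem pol_castM {n a b : ℕ} (h : a = b) (g : MonV n a → R) : pol (castM h g) = pol g := by
  subst h
  rfl

/-- the variable relations where `g s₀` is replaced by `f` -/
def swS {X : Type v} {n : ℕ} (s₀ : Fin t) (hs₀ : ds s₀ = 2) (f : MonV n 2 → X)
    (g : ∀ s, MonV n (ds s) → X) : ∀ s, MonV n (ds s) → X :=
  fun s q => if h : s = s₀ then f ⟨q.1, by rw [← hs₀, ← h]; exact q.2⟩ else g s q

theorem pol_swS_same {n : ℕ} (s₀ : Fin t) (hs₀ : ds s₀ = 2) (f : MonV n 2 → R)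
    (g : ∀ s, MonV n (ds s) → R) : pol (swS s₀ hs₀ f g s₀) = pol f := by
  have h1 : swS s₀ hs₀ f g s₀ = castM hs₀.symm f := by
    funext q
    simp only [swS, castM, dif_pos]
  rw [h1, pol_castM]

theorem swS_ne {X : Type v} {n : ℕ} {s₀ : Fin t} {hs₀ : ds s₀ = 2} {f : MonV n 2 → X}
    {g : ∀ s, MonV n (ds s) → X} {s : Fin t} (h : s ≠ s₀) : swS s₀ hs₀ f g s = g s := by
  funext q
  simp only [swS, dif_neg h]

/-- the relations where the relation `s₀` is replaced by `f` -/
def swR {X : Type v} {n : ℕ} (s₀ : Fin t) (hs₀ : ds s₀ = 2) (f : MonV n 2 → X)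
    (rel : ∀ u : Fin t ⊕ U, MonV n (Sum.elim ds e u) → X) :
    ∀ u : Fin t ⊕ U, MonV n (Sum.elim ds e u) → X :=
  relS (swS s₀ hs₀ f fun s => rel (Sum.inl s)) fun u => rel (Sum.inr u)

/-- the multipliers where the one of `s₀` is replaced by `H` -/
def swH {Y : Type v} (s₀ : Fin t) (H : Y) (H' : Fin t ⊕ U → Y) : Fin t ⊕ U → Y :=
  Sum.elim (fun s => if s = s₀ then H else H' (Sum.inl s)) fun u => H' (Sum.inr u)

omit [Fintype U] in
theorem swH_mem {Y : Type v} {s₀ : Fin t} {H : Y} {H' : Fin t ⊕ U → Y} {P : Y → Prop} (h : P H)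
    (h' : ∀ u, P (H' u)) : ∀ u, P (swH s₀ H H' u) := by
  rintro (s | u)
  · change P (if s = s₀ then H else H' (Sum.inl s))
    split_ifs
    · exact h
    · exact h' _
  · exact h' _

theorem comb_swR {n a : ℕ} (s₀ : Fin t) (hs₀ : ds s₀ = 2) (f : MonV n 2 → R)
    (rel : ∀ u : Fin t ⊕ U, MonV n (Sum.elim ds e u) → R) (H : MonV n a → R)
    (H' : Fin t ⊕ U → MonV n a → R) :
    comb (rel (Sum.inl s₀) : MonV n (ds s₀) → R) (swR s₀ hs₀ f rel) H H' =
      comb f rel (H' (Sum.inl s₀)) (swH s₀ H H') := by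
  classical
  unfold comb
  rw [Fintype.sum_sum_type, Fintype.sum_sum_type,
    ← Finset.add_sum_erase Finset.univ _ (Finset.mem_univ s₀),
    ← Finset.add_sum_erase Finset.univ (fun s => pol (swH s₀ H H' (Sum.inl s)) *
      pol (rel (Sum.inl s))) (Finset.mem_univ s₀)]
  have h2 : pol (swR s₀ hs₀ f rel (Sum.inl s₀)) = pol f :=
    pol_swS_same s₀ hs₀ f (fun s => rel (Sum.inl s))
  have h4 : swH s₀ H H' (Sum.inl s₀) = H := if_pos rfl
  have h3 : ∑ s ∈ Finset.univ.erase s₀, pol (H' (Sum.inl s)) * pol (swR s₀ hs₀ f rel (Sum.inl s)) =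
      ∑ s ∈ Finset.univ.erase s₀, pol (swH s₀ H H' (Sum.inl s)) * pol (rel (Sum.inl s)) := by
    refine Finset.sum_congr rfl fun s hs => ?_
    have hs' := (Finset.mem_erase.1 hs).1
    have h5 : swH s₀ H H' (Sum.inl s) = H' (Sum.inl s) := if_neg hs'
    have h6 : swR s₀ hs₀ f rel (Sum.inl s) = rel (Sum.inl s) :=
      swS_ne (hs₀ := hs₀) (f := f) (g := fun s => rel (Sum.inl s)) hs'
    rw [h5, h6]
  have h7 : ∑ u, pol (H' (Sum.inr u)) * pol (swR s₀ hs₀ f rel (Sum.inr u)) =
      ∑ u, pol (swH s₀ H H' (Sum.inr u)) * pol (rel (Sum.inr u)) := rfl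
  rw [h2, h3, h4, h7]
  ring

end relswap

end Pool.Agent.TQ
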