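import Pool.Agent.Helper10.TQ.Swap

/-!
# Project TQ (two quadrics): the swapped certificates
-/

universe u v

namespace Pool.Agent.TQ

open MvPolynomial Pool.Agent.BT

section swr

variable {N t : ℕ} {ds : Fin t → ℕ} {U : Type} [Fintype U] {e : U → ℕ}

omit [Fintype U] in
theorem swR_mem {X : Type v} {n : ℕ} {s₀ : Fin t} {hs₀ : ds s₀ = 2} {f : MonV n 2 → X}
    {rel : ∀ u : Fin t ⊕ U, MonV n (Sum.elim ds e u) → X} {P : X → Prop} (hf : ∀ q, P (f q))
    (hrel : ∀ u q, P (rel u q)) : ∀ u q, P (swR s₀ hs₀ f rel u q) := by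
  rintro (s | u) q
  · change P (if h : s = s₀ then f ⟨q.1, _⟩ else rel (Sum.inl s) q)
    split_ifs
    · exact hf _
    · exact hrel _ _
  · exact hrel _ _

omit [Fintype U] in
theorem swR_map {X Y : Type v} {n : ℕ} {s₀ : Fin t} {hs₀ : ds s₀ = 2} {f : MonV n 2 → X}
    {rel : ∀ u : Fin t ⊕ U, MonV n (Sum.elim ds e u) → X} (φ : X → Y) (u : Fin t ⊕ U)
    (q : MonV n (Sum.elim ds e u)) : φ (swR s₀ hs₀ f rel u q) =
      swR s₀ hs₀ (fun q => φ (f q)) (fun u q => φ (rel u q)) u q := by
  rcases u with s | u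
  · change φ (if h : s = s₀ then f ⟨q.1, _⟩ else rel (Sum.inl s) q) =
      (if h : s = s₀ then φ (f ⟨q.1, _⟩) else φ (rel (Sum.inl s) q))
    split_ifs
    · rfl
    · rfl
  · rfl

variable {K : Type u} [Field K] {s₀ : Fin t} {hs₀ : ds s₀ = 2} {f : MonV (N + 2) 2 → K}
  {rel : ∀ u : Fin t ⊕ U, MonV (N + 2) (Sum.elim ds e u) → K}

theorem Cop.of_swR {n : ℕ} {G G' : MonV (N + 2) n → K} {M : ℕ}
    (h : Cop G G' (rel (Sum.inl s₀) : MonV (N + 2) (ds s₀) → K) (swR s₀ hs₀ f rel) M) :
    Cop G G' f rel M := by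
  intro q
  obtain ⟨A, B, H, H', h1⟩ := h q
  rw [comb_swR] at h1
  exact ⟨A, B, _, _, h1⟩

theorem FinX.of_swR {M : ℕ}
    (h : FinX (rel (Sum.inl s₀) : MonV (N + 2) (ds s₀) → K) (swR s₀ hs₀ f rel) M) :
    FinX f rel M := by
  intro q
  obtain ⟨A, B, H, H', h1⟩ := h q
  rw [comb_swR] at h1
  exact ⟨A, B, _, _, h1⟩

end swr

section cert

variable {K : Type u} [Field K] {N t : ℕ} {ht : t ≤ N} {U : Type} [Fintype U] {e : U → ℕ}

/-- the swap of `y` and `u = X (2 + s₀)` -/
def piU (ht : t ≤ N) (s₀ : Fin t) : Equiv.Perm (Fin (N + 2)) := Equiv.swap 1 (uix ht s₀)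

theorem piU_zero (s₀ : Fin t) : piU ht s₀ 0 = 0 := by
  unfold piU
  refine Equiv.swap_apply_of_ne_of_ne ?_ ?_
  · intro h
    have := congrArg Fin.val h
    simp at this
  · intro h
    have := congrArg Fin.val h
    change 0 = 2 + (s₀ : ℕ) at this
    omega

theorem piU_symm (s₀ : Fin t) : (piU ht s₀).symm = piU ht s₀ := Equiv.symm_swap _ _

theorem piU_one (s₀ : Fin t) : piU ht s₀ 1 = uix ht s₀ := Equiv.swap_apply_left _ _

theorem piU_uix (s₀ : Fin t) : piU ht s₀ (uix ht s₀) = 1 := Equiv.swap_apply_right _ _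

theorem piU_ne {s₀ s : Fin t} (h : s ≠ s₀) : piU ht s₀ (uix ht s) = uix ht s := by
  refine Equiv.swap_apply_of_ne_of_ne ?_ ?_
  · intro h
    have := congrArg Fin.val h
    change 2 + (s : ℕ) = 1 at this
    omega
  · intro h'
    have := congrArg Fin.val h'
    change 2 + (s : ℕ) = 2 + (s₀ : ℕ) at this
    exact h (Fin.ext (by omega))

theorem CertV.ren {h : ∀ u, MonV (N + 2) (e u) → K} {c : ℕ} (hcert : CertV ht h c) (s₀ : Fin t) :
    CertV ht (fun u => ren (piU ht s₀) (h u)) c := by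
  classical
  set π := piU ht s₀ with hπ
  -- the permutation of the indices
  let π' : Equiv.Perm (Fin (t + 2)) := Equiv.swap 1 ⟨2 + s₀, by omega⟩
  have hππ : ∀ s : Fin (t + 2), π (Fin.castLE (by omega) s) = Fin.castLE (by omega) (π' s) := by
    intro s
    by_cases h1 : s = 1
    · subst h1
      rw [Equiv.swap_apply_left]
      exact piU_one s₀
    · by_cases h2 : s = ⟨2 + s₀, by omega⟩
      · subst h2
        rw [Equiv.swap_apply_right]
        exact piU_uix s₀
      · rw [Equiv.swap_apply_of_ne_of_ne h1 h2]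
        refine Equiv.swap_apply_of_ne_of_ne ?_ ?_
        · intro h3
          apply h1
          have h4 := congrArg Fin.val h3
          apply Fin.ext
          simpa using h4
        · intro h3
          apply h2
          have h4 := congrArg Fin.val h3
          apply Fin.ext
          simpa [uix] using h4
  intro q
  obtain ⟨A, B, b, hb, h1⟩ := hcert ⟨q.1.mapDomain π.symm,
    (degree_mapDomain_perm π.symm q.1).le.trans q.2⟩
  refine ⟨TQ.ren π A, fun s => TQ.ren π (B (π'.symm s)), fun u => rename π (b u), ?_, ?_⟩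
  · intro u hu
    have h2 : b u ≠ 0 := by
      intro h3
      apply hu
      change rename π (b u) = 0
      rw [h3, map_zero]
    exact (add_le_add (totalDegree_rename_le _ _) le_rfl).trans (hb u h2)
  · have h2 := congrArg (rename π) h1
    rw [map_add, map_add, map_sum, map_sum, ← pol_ren, rename_monomial_symm] at h2
    rw [← h2]
    have h3 : ∑ s, pol (TQ.ren π (B (π'.symm s))) * (X (Fin.castLE (by omega) s) :
        MvPolynomial (Fin (N + 2)) K) = ∑ s, rename π (pol (B s) * X (Fin.castLE (by omega) s)) := by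
      rw [← Equiv.sum_comp π']
      refine Finset.sum_congr rfl fun s _ => ?_
      rw [map_mul, rename_X, ← pol_ren, hππ, Equiv.symm_apply_apply]
    have h4 : ∑ u, rename π (b u) * pol (TQ.ren π (h u)) = ∑ u, rename π (b u * pol (h u)) := by
      refine Finset.sum_congr rfl fun u _ => ?_
      rw [map_mul, pol_ren]
    rw [← h3, ← h4]

end cert

section special

variable {R : Type u} [CommRing R] {N t : ℕ} {ht : t ≤ N} {ds : Fin t → ℕ} {s₀ : Fin t}

omit [CommRing R] in
theorem tdX [CommRing R] {σ : Type} (i : σ) : (X i : MvPolynomial σ R).totalDegree ≤ 1 :=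
  (totalDegree_monomial_le _ _).trans (by simp)

omit [CommRing R] in
theorem tdXp [CommRing R] {σ : Type} (i : σ) (n : ℕ) :
    (X i ^ n : MvPolynomial σ R).totalDegree ≤ n :=
  (totalDegree_pow _ _).trans ((Nat.mul_le_mul_left n (tdX i)).trans (by omega))

theorem totalDegree_spQ (hs₀ : ds s₀ = 2) (s : Fin t) :
    (spQ R ht ds s₀ s).totalDegree ≤ ds s := by
  by_cases h : s = s₀
  · subst h
    rw [spQ, if_pos rfl, hs₀]
    refine (totalDegree_sub _ _).trans (max_le ?_ ?_)
    · refine (totalDegree_mul _ _).trans ?_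
      have h3 : (X (uix ht s) - 2 : MvPolynomial (Fin (N + 2)) R).totalDegree ≤ 1 := by
        refine (totalDegree_sub _ _).trans (max_le (tdX _) ?_)
        have h2 : (2 : MvPolynomial (Fin (N + 2)) R) = C 2 := by rw [map_ofNat]
        rw [h2, totalDegree_C]
        exact Nat.zero_le _
      have h4 := tdX (R := R) (uix ht s)
      omega
    · exact tdXp _ _
  · rw [spQ, if_neg h]
    exact tdXp _ _

theorem pol_g0Q (hs₀ : ds s₀ = 2) (s : Fin t) :
    pol (fun q => ((g0Q ht ds s₀ s q : ℤ) : R)) = spQ R ht ds s₀ s := by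
  have h1 : pol (g0Q ht ds s₀ s) = spQ ℤ ht ds s₀ s := pol_coeff (totalDegree_spQ hs₀ s)
  have h2 := congrArg (MvPolynomial.map (Int.castRingHom R)) h1
  rw [map_pol] at h2
  change pol (fun q => (Int.castRingHom R) (g0Q ht ds s₀ s q)) = _
  rw [h2]
  unfold spQ
  split_ifs <;> simp

end special

end Pool.Agent.TQ
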